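import Pool.Agent.Work.MP_8db9c5_an.H71.Flip

namespace Pool.Agent.Jam

open Finset Filter Topology
open scoped InnerProductSpace

lemma le_of_sq {a b : ℝ} (hb : 0 ≤ b) (h : a ^ 2 ≤ b ^ 2) : a ≤ b :=
  le_of_sq_le_sq' h hb
where
  le_of_sq_le_sq' {a b : ℝ} (h : a ^ 2 ≤ b ^ 2) (hb : 0 ≤ b) : a ≤ b := by
    by_contra hcon
    push Not at hcon
    nlinarith

/-- real `ℓ²` -/
abbrev H2 : Type := lp (fun _ : ℕ => ℝ) 2

noncomputable def hb : HilbertBasis ℕ ℝ H2 := HilbertBasis.ofRepr (LinearIsometryEquiv.refl ℝ _)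

/-- the first two vectors are at angle `π / 3` -/
noncomputable def xh (i : ℕ) : H2 :=
  if i = 1 then (1 / 2 : ℝ) • hb 0 + (√3 / 2) • hb 1 else hb i

lemma hb_inner (i j : ℕ) : ⟪hb i, hb j⟫_ℝ = if i = j then 1 else 0 :=
  orthonormal_iff_ite.1 hb.orthonormal i j

lemma hb_norm (i : ℕ) : ‖hb i‖ = 1 := hb.orthonormal.norm_eq_one i

lemma xh_zero : xh 0 = hb 0 := by simp [xh]
lemma xh_one : xh 1 = (1 / 2 : ℝ) • hb 0 + (√3 / 2) • hb 1 := by simp [xh]
lemma xh_ge {i : ℕ} (h : 2 ≤ i) : xh i = hb i := by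
  have : i ≠ 1 := by omega
  simp [xh, this]

lemma sq3 : √3 * √3 = (3 : ℝ) := Real.mul_self_sqrt (by norm_num)
lemma sq3_ne : (√3 : ℝ) ≠ 0 := by positivity

/-- the unconditional basis -/
noncomputable def bh : UnconditionalSchauderBasis ℕ ℝ H2 where
  basis := xh
  coord i := if i = 0 then innerSL ℝ (hb 0) - (1 / √3) • innerSL ℝ (hb 1)
    else if i = 1 then (2 / √3) • innerSL ℝ (hb 1) else innerSL ℝ (hb i)
  ortho i j := by
    have h3 := sq3_ne
    simp only [Pi.single_apply]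
    by_cases hj : j = 1
    · subst hj
      rw [xh_one]
      by_cases hi : i = 0
      · subst hi
        simp [inner_add_right, inner_smul_right, hb_inner, hb_norm]
        field_simp
        norm_num
      · by_cases hi1 : i = 1
        · subst hi1
          simp [inner_add_right, inner_smul_right, hb_inner, hb_norm]
        · simp [hi, hi1, inner_add_right, inner_smul_right, hb_inner]
    · have hxj : xh j = hb j := by simp [xh, hj]
      rw [hxj]
      by_cases hi : i = 0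
      · subst hi
        have : (1 : ℕ) ≠ j := Ne.symm hj
        simp [hb_inner, this]
      · by_cases hi1 : i = 1
        · subst hi1
          have : (1 : ℕ) ≠ j := Ne.symm hj
          simp [hb_inner, this]
        · simp [hi, hi1, hb_inner]
  expansion v := by
    have h3 := sq3_ne
    have h1 := hb.hasSum_repr v
    simp only [hb.repr_apply_apply] at h1
    have e1 : ∑ i ∈ range 2, ((if i = 0 then innerSL ℝ (hb 0) - (1 / √3) • innerSL ℝ (hb 1)
        else if i = 1 then (2 / √3) • innerSL ℝ (hb 1) else innerSL ℝ (hb i)) v) • xh i =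
        ∑ i ∈ range 2, ⟪hb i, v⟫_ℝ • hb i := by
      rw [Finset.sum_range_succ, Finset.sum_range_one, Finset.sum_range_succ, Finset.sum_range_one,
        xh_zero, xh_one]
      simp only [if_pos, one_ne_zero, if_false, _root_.sub_apply, _root_.smul_apply,
        innerSL_apply_apply, smul_eq_mul, smul_add, smul_smul]
      rw [← add_assoc, ← add_smul]
      congr 1
      · congr 1
        field_simp
        ring
      · congr 1
        field_simp
    rw [← hasSum_nat_add_iff' 2] at h1 ⊢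
    rw [e1]
    refine h1.congr_fun ?_
    intro n
    have h4 : n + 2 ≠ 0 := by omega
    have h5 : n + 2 ≠ 1 := by omega
    rw [xh_ge (by omega)]
    simp [h5]

lemma xh_norm (i : ℕ) : ‖xh i‖ = 1 := by
  have h1 : ⟪xh i, xh i⟫_ℝ = 1 := by
    by_cases h : i = 1
    · subst h
      rw [xh_one]
      simp only [inner_add_left, inner_add_right, inner_smul_left, inner_smul_right, hb_inner]
      simp
      have := sq3
      nlinarith
    · have : xh i = hb i := by simp [xh, h]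
      rw [this, hb_inner, if_pos rfl]
  rw [real_inner_self_eq_norm_sq] at h1
  have h2 := norm_nonneg (xh i)
  nlinarith

lemma inner_W {z : H2} (hz : z ∈ W xh) : ⟪xh 0, z⟫_ℝ = 0 ∧ ⟪xh 1, z⟫_ℝ = 0 := by
  refine Submodule.span_induction (p := fun z _ => ⟪xh 0, z⟫_ℝ = 0 ∧ ⟪xh 1, z⟫_ℝ = 0)
    ?_ ?_ ?_ ?_ hz
  · rintro v ⟨i, hi, rfl⟩
    rw [xh_ge hi, xh_zero, xh_one]
    have h0 : (0 : ℕ) ≠ i := by omega
    have h1 : (1 : ℕ) ≠ i := by omega
    simp [inner_add_left, inner_smul_left, hb_inner, h0, h1]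
  · simp
  · rintro u v _ _ ⟨h1, h2⟩ ⟨h3, h4⟩
    simp [inner_add_right, h1, h2, h3, h4]
  · rintro c v _ ⟨h1, h2⟩
    simp [inner_smul_right, h1, h2]

lemma xh_sq (α β : ℝ) {z : H2} (hz : z ∈ W xh) :
    ‖α • xh 0 + β • xh 1 + z‖ ^ 2 = α ^ 2 + α * β + β ^ 2 + ‖z‖ ^ 2 := by
  obtain ⟨h1, h2⟩ := inner_W hz
  have h3 : ⟪xh 0, xh 1⟫_ℝ = 1 / 2 := by
    rw [xh_zero, xh_one, inner_add_right, inner_smul_right, inner_smul_right, hb_inner, hb_inner]
    simp
  have h00 : ⟪xh 0, xh 0⟫_ℝ = 1 := by rw [real_inner_self_eq_norm_sq, xh_norm]; norm_num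
  have h11 : ⟪xh 1, xh 1⟫_ℝ = 1 := by rw [real_inner_self_eq_norm_sq, xh_norm]; norm_num
  have h10 : ⟪xh 1, xh 0⟫_ℝ = 1 / 2 := by rw [real_inner_comm, h3]
  have h1' : ⟪z, xh 0⟫_ℝ = 0 := by rw [real_inner_comm, h1]
  have h2' : ⟪z, xh 1⟫_ℝ = 0 := by rw [real_inner_comm, h2]
  rw [← real_inner_self_eq_norm_sq, ← real_inner_self_eq_norm_sq]
  simp only [inner_add_left, inner_add_right, inner_smul_left, inner_smul_right, h00, h11, h3, h10,
    h1, h2, h1', h2']
  simp
  ring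

lemma cond_xh : Cond xh 1 := by
  have e : ∀ α β γ δ : ℝ, ∀ z ∈ W xh, α ^ 2 + α * β + β ^ 2 = γ ^ 2 + γ * δ + δ ^ 2 →
      ‖α • xh 0 + β • xh 1 + z‖ = ‖γ • xh 0 + δ • xh 1 + z‖ := by
    intro α β γ δ z hz h
    have h1 := xh_sq α β hz
    have h2 := xh_sq γ δ hz
    refine le_antisymm (le_of_sq (norm_nonneg _) ?_) (le_of_sq (norm_nonneg _) ?_)
    · rw [h1, h2]; linarith
    · rw [h1, h2]; linarith
  have e0 : ∀ α : ℝ, ∀ z : H2, α • xh 0 + z = α • xh 0 + (0 : ℝ) • xh 1 + z := by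
    intro α z; simp
  have e1 : ∀ α : ℝ, ∀ z : H2, α • xh 1 + z = (0 : ℝ) • xh 0 + α • xh 1 + z := by
    intro α z; simp
  refine ⟨fun α z hz => ?_, fun α β z hz M h1 h2 h3 h4 => ⟨?_, ?_, ?_⟩⟩
  · rw [e0, e0 α]
    exact (e _ _ _ _ z hz (by ring)).le
  · rw [e1, e _ _ (α + β) 0 z hz (by ring), ← e0]; exact h3
  · rw [e _ _ α β z hz (by ring)]; exact h2
  · rw [e0, e _ _ 0 β z hz (by ring), ← e1]; exact h1

theorem hilbert_example : ∃ T : Jamesification bh.basis ≃ₗᵢ[ℝ] Jamesification bh.basis,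
    T ≠ LinearIsometryEquiv.refl ℝ _ ∧ T ≠ LinearIsometryEquiv.neg ℝ := by
  refine exists_nontrivial (x := xh) cond_xh ?_ ?_
  · intro h; have := xh_norm 0; rw [h, norm_zero] at this; exact zero_ne_one this
  · intro h; have := xh_norm 2; rw [h, norm_zero] at this; exact zero_ne_one this

end Pool.Agent.Jam
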