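import Pool.Agent.Work.MP_8db9c5_an.Ops
import Pool.Agent.Work.MP_8db9c5_an.H71.Hilb

/-!
# The Hilbert space example: the exchange of the first two tail sums
-/

namespace Pool.Agent.Jam

open Finset Filter Topology Pool.Agent.Work.MP_8db9c5_an

section
variable {X : Type*} [NormedAddCommGroup X] [NormedSpace ℝ X]

/-- the unit vectors of `J(x_i)` -/
noncomputable def ee (x : ℕ → X) (k : ℕ) : Jamesification x := toJ x (Finsupp.single k 1)

lemma sum_ee (x : ℕ → X) (a : ℕ →₀ ℝ) : (a.sum fun i c => c • ee x i) = toJ x a := by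
  conv_rhs => rw [← Finsupp.sum_single a]
  rw [Finsupp.sum, Finsupp.sum, map_sum]
  refine Finset.sum_congr rfl fun i _ => ?_
  rw [ee, ← map_smul, Finsupp.smul_single, smul_eq_mul, mul_one]

lemma L_eq_sum (x : ℕ → X) (σ : ℕ → ℕ) (r : ℕ → Option ℕ)
    (h : ∀ j, xo x (σ j) = ox x (r j)) (a : ℕ →₀ ℝ) :
    L x σ a = a.sum fun j c => c • ox x (r j) := by
  rw [L, Finsupp.linearCombination_apply]
  refine Finsupp.sum_congr fun j _ => ?_
  rw [h]

theorem isJamesification_ee (x : ℕ → X) : IsJamesification x (ee x) where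
  dense := by
    have h := (isJ_toJ x).dense
    refine Dense.mono ?_ h
    rintro _ ⟨a, rfl⟩
    rw [← sum_ee]
    exact Submodule.sum_mem _ fun i _ => Submodule.smul_mem _ _ (Submodule.subset_span ⟨i, rfl⟩)
  norm_eq a := by
    rw [sum_ee, (isJ_toJ x).norm_eq]
    constructor
    · rintro c ⟨k, p, q, _, hc, rfl⟩
      obtain ⟨r, hr, _, hr3⟩ := exists_code x k p q hc
      let σ : ℕ → ℕ := fun j => (r j).elim 0 (fun p => p + 1)
      have hσr : ∀ j, xo x (σ j) = ox x (r j) := by
        intro j
        simp only [σ]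
        rcases r j with _ | p <;> rfl
      have hσ : Ch σ := by
        intro j p' hj
        have h1 : r j = some p' := by
          simp only [σ] at hj
          rcases h : r j with _ | p''
          · rw [h] at hj; simp at hj
          · rw [h] at hj; simp at hj; rw [hj]
        obtain ⟨h2, h3⟩ := hr j p' h1
        refine ⟨h2, fun i hi1 hi2 => ?_⟩
        simp only [σ]
        rw [h3 i hi1 hi2]; rfl
      rw [← hr3 a, ← L_eq_sum x σ r hσr]
      exact le_jn x hσ a
    · intro M hM
      have hM0 : 0 ≤ M := by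
        refine (norm_nonneg _).trans (hM ⟨1, fun _ => 0, fun _ => 0, le_rfl, ⟨fun _ _ => le_rfl,
          fun i hi => by omega⟩, rfl⟩)
      refine jn_le x fun σ hσ => ?_
      let r : ℕ → Option ℕ := fun j => if σ j = 0 then none else some (σ j - 1)
      have hrσ : ∀ j p, r j = some p ↔ σ j = p + 1 := by
        intro j p
        simp only [r]
        by_cases h : σ j = 0
        · rw [if_pos h, h]; simp
        · rw [if_neg h, Option.some.injEq]; omega
      have hr : IsCode r := by
        intro j p hj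
        obtain ⟨h1, h2⟩ := hσ j p ((hrσ j p).1 hj)
        exact ⟨h1, fun i hi1 hi2 => (hrσ i p).2 (h2 i hi1 hi2)⟩
      have hσr : ∀ j, xo x (σ j) = ox x (r j) := by
        intro j
        rcases h : σ j with _ | p
        · have : r j = none := by simp only [r]; rw [if_pos h]
          rw [this]; rfl
        · rw [(hrσ j p).2 h]; rfl
      rw [L_eq_sum x σ r hσr]
      obtain ⟨n, hn⟩ := sum_eq_range a (fun j => ox x (r j))
      rw [hn n le_rfl]
      obtain ⟨k, p, q, h1, _, _, h4⟩ := exists_chain x hr n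
      rw [← h4 a]
      rcases Nat.eq_zero_or_pos k with hk | hk
      · subst hk
        simpa [jvec] using hM0
      · exact hM ⟨k, p, q, hk, h1, rfl⟩

/-- the operator `U κ` is an isometry -/
theorem exists_U {x : ℕ → X} {κ : ℝ} (h : Cond x κ) :
    ∃ T : Jamesification x ≃ₗᵢ[ℝ] Jamesification x, T (ee x 0) = κ • ee x 1 - ee x 0 ∧
      ∀ k, 1 ≤ k → T (ee x k) = ee x k := by
  have hJ := isJ_toJ x
  let T : Jamesification x ≃ₗᵢ[ℝ] Jamesification x :=
    (Ueq κ).extendOfIsometry (toJ x) (toJ x) hJ.dense hJ.dense (fun a => by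
      rw [hJ.norm_eq, hJ.norm_eq]; exact jn_U h a)
  have hT : ∀ a, T (toJ x a) = toJ x (U κ a) := fun a =>
    LinearEquiv.extendOfIsometry_eq _ _ _ _ _ _ a
  refine ⟨T, ?_, fun k hk => ?_⟩
  · change T (toJ x (Finsupp.single 0 1)) = _
    rw [hT, U_apply, Finsupp.single_eq_same, one_smul, map_add, map_add]
    have h1 : toJ x (Finsupp.single 0 (-2)) = (-2 : ℝ) • ee x 0 := by
      rw [ee, ← map_smul, Finsupp.smul_single, smul_eq_mul, mul_one]
    have h2 : toJ x (Finsupp.single 1 κ) = κ • ee x 1 := by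
      rw [ee, ← map_smul, Finsupp.smul_single, smul_eq_mul, mul_one]
    rw [h1, h2]
    change ee x 0 + _ = _
    module
  · rw [ee, hT, U_apply, Finsupp.single_apply, if_neg (by omega), zero_smul, add_zero]

end

/-- a normalised unconditional basis of `ℓ²` and its Jamesification with the extra isometry -/
theorem hilbert_U : (∀ i, ‖bh.basis i‖ = 1) ∧ IsJamesification bh.basis (ee bh.basis) ∧
    ∃ T : Jamesification bh.basis ≃ₗᵢ[ℝ] Jamesification bh.basis,
      T (ee bh.basis 0) = ee bh.basis 1 - ee bh.basis 0 ∧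
        ∀ k, 1 ≤ k → T (ee bh.basis k) = ee bh.basis k := by
  refine ⟨xh_norm, isJamesification_ee _, ?_⟩
  obtain ⟨T, h1, h2⟩ := exists_U (x := xh) cond_xh
  exact ⟨T, by rw [one_smul] at h1; exact h1, h2⟩

end Pool.Agent.Jam
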