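import Mathlib

namespace Pool.Agent.Jam

open Finset Filter Topology

variable {X : Type*} [NormedAddCommGroup X] [NormedSpace ℝ X]

/-- the basis vectors, with `0` standing for `no interval` -/
def xo (x : ℕ → X) : ℕ → X
  | 0 => 0
  | p + 1 => x p

/-- chains of intervals (possibly infinite): `σ k = p + 1` when the index `k` belongs to the
interval starting at `p`, and `σ k = 0` when it belongs to no interval -/
def Ch (σ : ℕ → ℕ) : Prop :=
  ∀ k p, σ k = p + 1 → p ≤ k ∧ ∀ j, p ≤ j → j ≤ k → σ j = p + 1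

/-- value of the chain -/
noncomputable def L (x : ℕ → X) (σ : ℕ → ℕ) : (ℕ →₀ ℝ) →ₗ[ℝ] X :=
  Finsupp.linearCombination ℝ (fun k => xo x (σ k))

def V (x : ℕ → X) (a : ℕ →₀ ℝ) : Set ℝ := {r | ∃ σ, Ch σ ∧ r = ‖L x σ a‖}

noncomputable def jn (x : ℕ → X) (a : ℕ →₀ ℝ) : ℝ := sSup (V x a)

lemma Ch.le {σ : ℕ → ℕ} (h : Ch σ) (k : ℕ) : σ k ≤ k + 1 := by
  rcases hk : σ k with _ | p
  · omega
  · have := (h k p hk).1; omega

lemma ch_zero : Ch (fun _ => 0) := by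
  intro k p h; simp at h

lemma L_single (x : ℕ → X) (σ : ℕ → ℕ) (k : ℕ) (c : ℝ) :
    L x σ (Finsupp.single k c) = c • xo x (σ k) := by
  simp [L, Finsupp.linearCombination_single]

noncomputable def B (x : ℕ → X) (a : ℕ →₀ ℝ) : ℝ :=
  ∑ k ∈ a.support, |a k| * ∑ p ∈ range (k + 1), ‖x p‖

omit [NormedSpace ℝ X] in
lemma norm_xo_le (x : ℕ → X) {σ : ℕ → ℕ} (h : Ch σ) (k : ℕ) :
    ‖xo x (σ k)‖ ≤ ∑ p ∈ range (k + 1), ‖x p‖ := by
  rcases hk : σ k with _ | p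
  · simp only [xo, norm_zero]; positivity
  · have hp := (h k p hk).1
    simp only [xo]
    exact Finset.single_le_sum (f := fun p => ‖x p‖) (fun i _ => norm_nonneg _)
      (by simp; omega)

lemma norm_L_le (x : ℕ → X) {σ : ℕ → ℕ} (h : Ch σ) (a : ℕ →₀ ℝ) : ‖L x σ a‖ ≤ B x a := by
  rw [L, Finsupp.linearCombination_apply, Finsupp.sum, B]
  refine (norm_sum_le _ _).trans (Finset.sum_le_sum fun k _ => ?_)
  rw [norm_smul, Real.norm_eq_abs]
  exact mul_le_mul_of_nonneg_left (norm_xo_le x h k) (abs_nonneg _)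

lemma V_bdd (x : ℕ → X) (a : ℕ →₀ ℝ) : BddAbove (V x a) := by
  refine ⟨B x a, ?_⟩
  rintro r ⟨σ, h, rfl⟩
  exact norm_L_le x h a

lemma V_nonempty (x : ℕ → X) (a : ℕ →₀ ℝ) : (V x a).Nonempty := ⟨_, _, ch_zero, rfl⟩

lemma le_jn (x : ℕ → X) {σ : ℕ → ℕ} (h : Ch σ) (a : ℕ →₀ ℝ) : ‖L x σ a‖ ≤ jn x a :=
  le_csSup (V_bdd x a) ⟨σ, h, rfl⟩

lemma jn_le (x : ℕ → X) {a : ℕ →₀ ℝ} {c : ℝ} (h : ∀ σ, Ch σ → ‖L x σ a‖ ≤ c) : jn x a ≤ c := by
  refine csSup_le (V_nonempty x a) ?_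
  rintro r ⟨σ, hσ, rfl⟩
  exact h σ hσ

lemma jn_nonneg (x : ℕ → X) (a : ℕ →₀ ℝ) : 0 ≤ jn x a :=
  (norm_nonneg _).trans (le_jn x ch_zero a)

lemma jn_smul_le (x : ℕ → X) (c : ℝ) (a : ℕ →₀ ℝ) : jn x (c • a) ≤ |c| * jn x a := by
  refine jn_le x fun σ hσ => ?_
  rw [map_smul, norm_smul, Real.norm_eq_abs]
  exact mul_le_mul_of_nonneg_left (le_jn x hσ a) (abs_nonneg _)

lemma jn_smul (x : ℕ → X) (c : ℝ) (a : ℕ →₀ ℝ) : jn x (c • a) = |c| * jn x a := by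
  refine le_antisymm (jn_smul_le x c a) ?_
  rcases eq_or_ne c 0 with rfl | hc
  · simp [jn_nonneg]
  · have := jn_smul_le x c⁻¹ (c • a)
    rw [smul_smul, inv_mul_cancel₀ hc, one_smul, abs_inv] at this
    have hpos : 0 < |c| := abs_pos.2 hc
    calc |c| * jn x a ≤ |c| * (|c|⁻¹ * jn x (c • a)) := mul_le_mul_of_nonneg_left this hpos.le
      _ = jn x (c • a) := by rw [← mul_assoc, mul_inv_cancel₀ hpos.ne', one_mul]

lemma jn_add (x : ℕ → X) (a b : ℕ →₀ ℝ) : jn x (a + b) ≤ jn x a + jn x b := by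
  refine jn_le x fun σ hσ => ?_
  rw [map_add]
  exact (norm_add_le _ _).trans (add_le_add (le_jn x hσ a) (le_jn x hσ b))

lemma ch_sing' (j : ℕ) : Ch (fun k => if k = j then j + 1 else 0) := by
  intro k p hk
  simp only at hk
  split_ifs at hk with h1
  obtain rfl : p = j := by omega
  subst h1
  refine ⟨le_rfl, fun i h2 h3 => ?_⟩
  obtain rfl : i = k := by omega
  simp

/-! ### compactness of the set of chains -/

lemma isClosed_ch : IsClosed {σ : ℕ → ℕ | Ch σ} := by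
  have : {σ : ℕ → ℕ | Ch σ} = ⋂ (k : ℕ) (p : ℕ),
      ({σ : ℕ → ℕ | σ k = p + 1}ᶜ ∪ {σ : ℕ → ℕ | p ≤ k ∧ ∀ j, p ≤ j → j ≤ k → σ j = p + 1}) := by
    ext σ
    simp only [Set.mem_ofPred_eq, Ch, Set.mem_iInter, Set.mem_union, Set.mem_compl_iff]
    refine forall_congr' fun k => forall_congr' fun p => ?_
    tauto
  rw [this]
  refine isClosed_iInter fun k => isClosed_iInter fun p => ?_
  refine IsClosed.union ?_ ?_
  · have hc : Continuous (fun σ : ℕ → ℕ => σ k) := continuous_apply k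
    have : IsOpen {σ : ℕ → ℕ | σ k = p + 1} :=
      hc.isOpen_preimage _ (isOpen_discrete ({p + 1} : Set ℕ))
    exact this.isClosed_compl
  · have : {σ : ℕ → ℕ | p ≤ k ∧ ∀ j, p ≤ j → j ≤ k → σ j = p + 1} =
        {σ : ℕ → ℕ | p ≤ k} ∩ ⋂ (j : ℕ) (_ : p ≤ j) (_ : j ≤ k), {σ : ℕ → ℕ | σ j = p + 1} := by
      ext σ; simp
    rw [this]
    refine IsClosed.inter isClosed_const ?_
    refine isClosed_iInter fun j => isClosed_iInter fun _ => isClosed_iInter fun _ => ?_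
    have hc : Continuous (fun σ : ℕ → ℕ => σ j) := continuous_apply j
    exact IsClosed.preimage hc (isClosed_discrete ({p + 1} : Set ℕ))

lemma isCompact_ch : IsCompact {σ : ℕ → ℕ | Ch σ} := by
  have h : IsCompact (Set.univ.pi fun k : ℕ => Set.Iic (k + 1)) :=
    isCompact_univ_pi fun k => (Set.finite_Iic (k + 1)).isCompact
  refine h.of_isClosed_subset isClosed_ch ?_
  intro σ hσ k _
  exact Ch.le hσ k

/-! ### operators of chains on the Jamesification -/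

variable {J : Type*} [NormedAddCommGroup J] [NormedSpace ℝ J]

/-- `J`, with `ι : c₀₀ → J`, is a completion of `c₀₀` under the norm `jn x` (no completeness of `J`
is required here) -/
structure IsJ (x : ℕ → X) (ι : (ℕ →₀ ℝ) →ₗ[ℝ] J) : Prop where
  dense : DenseRange ι
  norm_eq : ∀ a, ‖ι a‖ = jn x a

variable (x : ℕ → X) (ι : (ℕ →₀ ℝ) →ₗ[ℝ] J)

noncomputable def e (k : ℕ) : J := ι (Finsupp.single k 1)

lemma ext_e {ι : (ℕ →₀ ℝ) →ₗ[ℝ] J} (hd : DenseRange ι) {Y : Type*} [NormedAddCommGroup Y]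
    [NormedSpace ℝ Y] {F G : J →L[ℝ] Y}
    (h : ∀ k, F (e ι k) = G (e ι k)) : F = G := by
  have h1 : ∀ a, F (ι a) = G (ι a) := by
    intro a
    have : (F.toLinearMap.comp ι) = (G.toLinearMap.comp ι) := by
      ext k
      simpa [e] using h k
    exact congrArg (fun f => f a) this
  ext z
  exact congrFun (hd.equalizer F.continuous G.continuous (funext h1)) z

section complete
variable [CompleteSpace X]

noncomputable def C (σ : ℕ → ℕ) : J →L[ℝ] X := (L x σ).extendOfNorm ι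

variable {x ι}

lemma C_ι (hJ : IsJ x ι) {σ : ℕ → ℕ} (hσ : Ch σ) (a : ℕ →₀ ℝ) : C x ι σ (ι a) = L x σ a := by
  refine LinearMap.extendOfNorm_eq hJ.dense ⟨1, fun a => ?_⟩ a
  rw [one_mul, hJ.norm_eq]; exact le_jn x hσ a

lemma C_e (hJ : IsJ x ι) {σ : ℕ → ℕ} (hσ : Ch σ) (k : ℕ) : C x ι σ (e ι k) = xo x (σ k) := by
  rw [e, C_ι hJ hσ, L_single, one_smul]

lemma C_le (hJ : IsJ x ι) {σ : ℕ → ℕ} (hσ : Ch σ) (z : J) : ‖C x ι σ z‖ ≤ ‖z‖ := by
  have := LinearMap.norm_extendOfNorm_apply_le (f := L x σ) (e := ι) hJ.dense 1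
    (fun a => by rw [one_mul, hJ.norm_eq]; exact le_jn x hσ a) z
  rw [one_mul] at this
  exact this

lemma C_tendsto (hJ : IsJ x ι) {s : ℕ → ℕ → ℕ} (hs : ∀ n, Ch (s n)) {σ : ℕ → ℕ} (hσ : Ch σ)
    (h : Tendsto s atTop (𝓝 σ)) (z : J) :
    Tendsto (fun n => C x ι (s n) z) atTop (𝓝 (C x ι σ z)) := by
  rw [Metric.tendsto_atTop]
  intro ε hε
  obtain ⟨a, ha⟩ : ∃ a, ‖z - ι a‖ < ε / 3 := by
    have := hJ.dense z
    rw [Metric.mem_closure_range_iff] at this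
    obtain ⟨a, ha⟩ := this (ε / 3) (by positivity)
    exact ⟨a, by rwa [dist_eq_norm] at ha⟩
  have h1 : ∀ᶠ n in atTop, ∀ k ∈ a.support, s n k = σ k := by
    rw [Filter.eventually_all_finset]
    intro k _
    have := (tendsto_pi_nhds.1 h) k
    rw [nhds_discrete, tendsto_pure] at this
    exact this
  obtain ⟨N, hN⟩ := eventually_atTop.1 h1
  refine ⟨N, fun n hn => ?_⟩
  have h2 : L x (s n) a = L x σ a := by
    rw [L, L, Finsupp.linearCombination_apply, Finsupp.linearCombination_apply]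
    refine Finset.sum_congr rfl fun k hk => ?_
    simp only [hN n hn k hk]
  have h3 : C x ι (s n) (ι a) = C x ι σ (ι a) := by rw [C_ι hJ (hs n), C_ι hJ hσ, h2]
  rw [dist_eq_norm]
  have : C x ι (s n) z - C x ι σ z = C x ι (s n) (z - ι a) - C x ι σ (z - ι a) := by
    rw [map_sub, map_sub, h3]; abel
  rw [this]
  calc _ ≤ ‖C x ι (s n) (z - ι a)‖ + ‖C x ι σ (z - ι a)‖ := norm_sub_le _ _
    _ ≤ ‖z - ι a‖ + ‖z - ι a‖ := add_le_add (C_le hJ (hs n) _) (C_le hJ hσ _)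
    _ < ε := by linarith

lemma exists_approx (hJ : IsJ x ι) (z : J) {δ : ℝ} (hδ : 0 < δ) :
    ∃ σ, Ch σ ∧ ‖z‖ - δ ≤ ‖C x ι σ z‖ := by
  obtain ⟨a, ha⟩ : ∃ a, ‖z - ι a‖ < δ / 3 := by
    have := hJ.dense z
    rw [Metric.mem_closure_range_iff] at this
    obtain ⟨a, ha⟩ := this (δ / 3) (by positivity)
    exact ⟨a, by rwa [dist_eq_norm] at ha⟩
  obtain ⟨r, ⟨σ, hσ, rfl⟩, hr⟩ := exists_lt_of_lt_csSup (V_nonempty x a)
    (show jn x a - δ / 3 < sSup (V x a) by rw [jn]; linarith)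
  refine ⟨σ, hσ, ?_⟩
  have h1 : ‖C x ι σ (ι a)‖ ≤ ‖C x ι σ z‖ + ‖C x ι σ (z - ι a)‖ := by
    have : C x ι σ (ι a) = C x ι σ z - C x ι σ (z - ι a) := by rw [map_sub]; abel
    rw [this]; exact norm_sub_le _ _
  have h2 := C_le hJ hσ (z - ι a)
  have h3 : ‖z‖ ≤ ‖ι a‖ + ‖z - ι a‖ := by
    have : z = ι a + (z - ι a) := by abel
    calc ‖z‖ = ‖ι a + (z - ι a)‖ := by rw [← this]
      _ ≤ _ := norm_add_le _ _
  rw [hJ.norm_eq] at h3
  rw [C_ι hJ hσ] at h1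
  linarith

lemma exists_norming (hJ : IsJ x ι) (z : J) : ∃ σ, Ch σ ∧ ‖C x ι σ z‖ = ‖z‖ := by
  choose s hs hs' using fun n : ℕ => exists_approx hJ z (δ := 1 / ((n : ℝ) + 1)) (by positivity)
  obtain ⟨σ, hσ, φ, hφ, hlim⟩ := isCompact_ch.tendsto_subseq (x := s) hs
  refine ⟨σ, hσ, le_antisymm (C_le hJ hσ z) ?_⟩
  have h1 := (C_tendsto hJ (fun n => hs (φ n)) hσ hlim z).norm
  have h2 : Tendsto (fun n : ℕ => ‖z‖ - 1 / (((φ n : ℕ) : ℝ) + 1)) atTop (𝓝 (‖z‖ - 0)) :=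
    tendsto_const_nhds.sub ((tendsto_one_div_add_atTop_nhds_zero_nat (𝕜 := ℝ)).comp hφ.tendsto_atTop)
  rw [sub_zero] at h2
  exact le_of_tendsto_of_tendsto' h2 h1 fun n => hs' (φ n)

end complete

end Pool.Agent.Jam
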