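import Mathlib
import Pool.Agent.Work.MP_8db9c5_an.H71.Basic

namespace Pool.Agent.Jam

open Finset Filter Topology

/-- `p(1) ≤ q(1) < p(2) ≤ q(2) < ... < p(k) ≤ q(k)` (indices are natural numbers, the first basis
vector has index `0`) -/
structure Intervals {k : ℕ} (p q : Fin k → ℕ) : Prop where
  le : ∀ i, p i ≤ q i
  lt : ∀ i j, i < j → q i < p j

section
variable {X : Type*} [NormedAddCommGroup X] [NormedSpace ℝ X]

/-- the norm of the Jamesification on finitely supported sequences -/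
noncomputable def jamesNorm (x : ℕ → X) (a : ℕ →₀ ℝ) : ℝ :=
  sSup {r | ∃ k : ℕ, 1 ≤ k ∧ ∃ p q : Fin k → ℕ, Intervals p q ∧
    r = ‖∑ i, (∑ j ∈ Icc (p i) (q i), a j) • x (p i)‖}

/-- every interval system gives a chain -/
lemma chain_of_intervals (x : ℕ → X) {k : ℕ} {p q : Fin k → ℕ} (h : Intervals p q) :
    ∃ σ, Ch σ ∧ ∀ a : ℕ →₀ ℝ, L x σ a = ∑ i, (∑ j ∈ Icc (p i) (q i), a j) • x (p i) := by
  classical
  have huniq : ∀ i i' n, p i ≤ n → n ≤ q i → p i' ≤ n → n ≤ q i' → i = i' := by
    intro i i' n h1 h2 h3 h4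
    rcases lt_trichotomy i i' with h5 | h5 | h5
    · have := h.lt i i' h5; omega
    · exact h5
    · have := h.lt i' i h5; omega
  let σ : ℕ → ℕ := fun n => if hn : ∃ i, p i ≤ n ∧ n ≤ q i then p hn.choose + 1 else 0
  have hσ1 : ∀ i n, p i ≤ n → n ≤ q i → σ n = p i + 1 := by
    intro i n h1 h2
    have hn : ∃ i, p i ≤ n ∧ n ≤ q i := ⟨i, h1, h2⟩
    have h3 := hn.choose_spec
    have h4 : hn.choose = i := huniq _ _ n h3.1 h3.2 h1 h2
    simp only [σ, dif_pos hn, h4]
  have hσ0 : ∀ n, (¬ ∃ i, p i ≤ n ∧ n ≤ q i) → σ n = 0 := by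
    intro n hn
    simp only [σ, dif_neg hn]
  refine ⟨σ, ?_, fun a => ?_⟩
  · intro n r hr
    by_cases hn : ∃ i, p i ≤ n ∧ n ≤ q i
    · obtain ⟨i, h1, h2⟩ := hn
      have h3 := hσ1 i n h1 h2
      obtain rfl : r = p i := by omega
      exact ⟨h1, fun j h4 h5 => hσ1 i j h4 (by omega)⟩
    · rw [hσ0 n hn] at hr; omega
  · rw [L, Finsupp.linearCombination_apply, Finsupp.sum]
    have h1 : ∀ n ∈ a.support, a n • xo x (σ n) =
        ∑ i, (if n ∈ Icc (p i) (q i) then a n • x (p i) else 0) := by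
      intro n _
      by_cases hn : ∃ i, p i ≤ n ∧ n ≤ q i
      · obtain ⟨i, h2, h3⟩ := hn
        rw [Finset.sum_eq_single i]
        · rw [hσ1 i n h2 h3, if_pos (by simp [h2, h3])]; rfl
        · intro i' _ hne
          rw [if_neg]
          intro hmem
          rw [mem_Icc] at hmem
          exact hne (huniq _ _ n hmem.1 hmem.2 h2 h3)
        · simp
      · rw [hσ0 n hn, Finset.sum_eq_zero]
        · simp [xo]
        · intro i _
          rw [if_neg]
          intro hmem
          rw [mem_Icc] at hmem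
          exact hn ⟨i, hmem⟩
    rw [Finset.sum_congr rfl h1, Finset.sum_comm]
    refine Finset.sum_congr rfl fun i _ => ?_
    rw [Finset.sum_smul]
    symm
    have h2 : ∑ n ∈ Icc (p i) (q i), a n • x (p i) =
        ∑ n ∈ Icc (p i) (q i) ∩ a.support, a n • x (p i) := by
      symm
      refine Finset.sum_subset Finset.inter_subset_left fun n hn hn' => ?_
      have : n ∉ a.support := fun h' => hn' (by simp [hn] at *; exact h')
      rw [Finsupp.notMem_support_iff.1 this, zero_smul]
    rw [h2, ← Finset.sum_filter]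
    refine Finset.sum_congr ?_ fun _ _ => rfl
    ext n; simp only [mem_inter, mem_filter]; tauto

/-- every chain is given, on a finitely supported sequence, by an interval system -/
lemma intervals_of_chain (x : ℕ → X) {σ : ℕ → ℕ} (hσ : Ch σ) (a : ℕ →₀ ℝ) :
    ∃ k : ℕ, 1 ≤ k ∧ ∃ p q : Fin k → ℕ, Intervals p q ∧
      L x σ a = ∑ i, (∑ j ∈ Icc (p i) (q i), a j) • x (p i) := by
  classical
  obtain ⟨K, hK⟩ : ∃ K, ∀ n, K ≤ n → a n = 0 := by
    refine ⟨a.support.sup id + 1, fun n hn => ?_⟩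
    by_contra h
    have h1 : n ∈ a.support := Finsupp.mem_support_iff.2 h
    have h2 : n ≤ a.support.sup id := Finset.le_sup (f := id) h1
    omega
  have hLsum : L x σ a = ∑ n ∈ range K, a n • xo x (σ n) := by
    rw [L, Finsupp.linearCombination_apply, Finsupp.sum]
    refine Finset.sum_subset (fun n hn => ?_) (fun n _ hn => ?_)
    · rw [mem_range]
      by_contra h
      exact (Finsupp.mem_support_iff.1 hn) (hK n (by omega))
    · rw [Finsupp.notMem_support_iff.1 hn, zero_smul]
  let P : Finset ℕ := (range K).filter fun p => σ p = p + 1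
  have hP : ∀ p, p ∈ P ↔ p < K ∧ σ p = p + 1 := by intro p; simp [P]
  let Q : ℕ → ℕ := fun p => ((range K).filter fun n => σ n = p + 1).sup id
  have hQ : ∀ p ∈ P, p ≤ Q p ∧ Q p < K ∧ σ (Q p) = p + 1 := by
    intro p hp
    rw [hP] at hp
    have hmem : p ∈ (range K).filter fun n => σ n = p + 1 := by simp [hp.1, hp.2]
    obtain ⟨b, hb, hb'⟩ := Finset.exists_mem_eq_sup _ ⟨p, hmem⟩ (id : ℕ → ℕ)
    have h1 : Q p = b := hb'
    simp only [mem_filter, mem_range] at hb
    refine ⟨Finset.le_sup (f := id) hmem, ?_, ?_⟩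
    · rw [h1]; exact hb.1
    · rw [h1]; exact hb.2
  have hQ2 : ∀ p ∈ P, ∀ n, n < K → (σ n = p + 1 ↔ n ∈ Icc p (Q p)) := by
    intro p hp n hn
    rw [mem_Icc]
    constructor
    · intro h
      refine ⟨(hσ n p h).1, ?_⟩
      exact Finset.le_sup (f := id) (by simp [hn, h])
    · rintro ⟨h1, h2⟩
      exact (hσ (Q p) p (hQ p hp).2.2).2 n h1 h2
  have hmain : L x σ a = ∑ p ∈ P, (∑ j ∈ Icc p (Q p), a j) • x p := by
    rw [hLsum]
    have h1 : ∀ n ∈ range K, a n • xo x (σ n) =
        ∑ p ∈ P, (if n ∈ Icc p (Q p) then a n • x p else 0) := by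
      intro n hn
      rw [mem_range] at hn
      rcases h0 : σ n with _ | p
      · rw [Finset.sum_eq_zero]
        · simp [xo]
        · intro p hp
          rw [if_neg]
          intro h2
          have := (hQ2 p hp n hn).2 h2
          omega
      · have hpn := hσ n p h0
        have hp : p ∈ P := by rw [hP]; exact ⟨by omega, hpn.2 p le_rfl hpn.1⟩
        rw [Finset.sum_eq_single p]
        · rw [if_pos ((hQ2 p hp n hn).1 h0)]; rfl
        · intro p' hp' hne
          rw [if_neg]
          intro h2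
          have := (hQ2 p' hp' n hn).2 h2
          omega
        · intro h; exact absurd hp h
    rw [Finset.sum_congr rfl h1, Finset.sum_comm]
    refine Finset.sum_congr rfl fun p hp => ?_
    rw [Finset.sum_smul, ← Finset.sum_filter]
    refine Finset.sum_congr ?_ fun _ _ => rfl
    ext n
    simp only [mem_filter, mem_range, and_iff_right_iff_imp]
    intro hn
    rw [mem_Icc] at hn
    have := (hQ p hp).2.1
    omega
  by_cases hcard : P.card = 0
  · refine ⟨1, le_rfl, fun _ => K, fun _ => K, ⟨fun _ => le_rfl, fun i j hij => ?_⟩, ?_⟩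
    · omega
    · rw [hmain, Finset.card_eq_zero.1 hcard]
      simp [hK K le_rfl]
  · refine ⟨P.card, by omega, P.orderEmbOfFin rfl, fun i => Q (P.orderEmbOfFin rfl i),
      ⟨fun i => (hQ _ (Finset.orderEmbOfFin_mem P rfl i)).1, fun i j hij => ?_⟩, ?_⟩
    · have hi := Finset.orderEmbOfFin_mem P rfl i
      have hj := Finset.orderEmbOfFin_mem P rfl j
      have hlt : P.orderEmbOfFin rfl i < P.orderEmbOfFin rfl j :=
        (P.orderEmbOfFin rfl).strictMono hij
      by_contra hcon
      push Not at hcon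
      have h1 := (hσ _ _ (hQ _ hi).2.2).2 _ hlt.le hcon
      have h2 := ((hP _).1 hj).2
      omega
    · rw [hmain]
      conv_lhs => rw [← Finset.map_orderEmbOfFin_univ P rfl]
      rw [Finset.sum_map]
      rfl

lemma jamesNorm_eq (x : ℕ → X) (a : ℕ →₀ ℝ) : jamesNorm x a = jn x a := by
  rw [jamesNorm, jn]
  congr 1
  ext r
  constructor
  · rintro ⟨k, _, p, q, h, rfl⟩
    obtain ⟨σ, hσ, h1⟩ := chain_of_intervals x h
    exact ⟨σ, hσ, by rw [h1]⟩
  · rintro ⟨σ, hσ, rfl⟩
    obtain ⟨k, hk, p, q, h, h1⟩ := intervals_of_chain x hσ a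
    exact ⟨k, hk, p, q, h, by rw [h1]⟩

/-- `c₀₀`, to be normed by `jamesNorm x` -/
def Pre (_x : ℕ → X) : Type := ℕ →₀ ℝ

noncomputable instance (x : ℕ → X) : AddCommGroup (Pre x) := inferInstanceAs (AddCommGroup (ℕ →₀ ℝ))

noncomputable instance (x : ℕ → X) : Module ℝ (Pre x) := inferInstanceAs (Module ℝ (ℕ →₀ ℝ))

noncomputable instance (x : ℕ → X) : Norm (Pre x) := ⟨fun a => jamesNorm x a⟩

lemma pre_core (x : ℕ → X) : SeminormedSpace.Core ℝ (Pre x) where
  norm_nonneg a := by
    change 0 ≤ jamesNorm x a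
    rw [jamesNorm_eq]; exact jn_nonneg x a
  norm_smul c a := by
    change jamesNorm x (c • (show ℕ →₀ ℝ from a)) = ‖c‖ * jamesNorm x a
    rw [jamesNorm_eq, jamesNorm_eq]; exact jn_smul x c a
  norm_triangle a b := by
    change jamesNorm x ((show ℕ →₀ ℝ from a) + (show ℕ →₀ ℝ from b)) ≤ jamesNorm x a + jamesNorm x b
    rw [jamesNorm_eq, jamesNorm_eq, jamesNorm_eq]; exact jn_add x a b

noncomputable instance (x : ℕ → X) : SeminormedAddCommGroup (Pre x) :=
  SeminormedAddCommGroup.ofCore (pre_core x)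

noncomputable instance (x : ℕ → X) : NormedSpace ℝ (Pre x) where
  norm_smul_le c a := ((pre_core x).norm_smul c a).le

/-- the Jamesification `J(x_i)`: the completion of `c₀₀` under `jamesNorm x` -/
abbrev Jamesification (x : ℕ → X) : Type := UniformSpace.Completion (Pre x)

/-- the canonical map `c₀₀ → J(x_i)` -/
noncomputable def toJ (x : ℕ → X) : (ℕ →₀ ℝ) →ₗ[ℝ] Jamesification x :=
  (UniformSpace.Completion.toComplL (𝕜 := ℝ) (E := Pre x)).toLinearMap

lemma isJ_toJ (x : ℕ → X) : IsJ x (toJ x) where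
  dense := UniformSpace.Completion.denseRange_coe (α := Pre x)
  norm_eq a := by
    change ‖((show Pre x from a : Pre x) : UniformSpace.Completion (Pre x))‖ = _
    rw [UniformSpace.Completion.norm_coe]
    exact jamesNorm_eq x a

end

end Pool.Agent.Jam
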