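import Pool.Agent.Work.MP_8db9c5_an.H71.Defs

namespace Pool.Agent.Jam

open Finset Filter Topology

variable {X : Type*} [NormedAddCommGroup X] [NormedSpace ℝ X]

/-- `a₀ ↦ -a₀`, `a₁ ↦ a₁ + κ a₀`, the other coordinates fixed -/
noncomputable def U (κ : ℝ) : (ℕ →₀ ℝ) →ₗ[ℝ] (ℕ →₀ ℝ) :=
  LinearMap.id + (Finsupp.lapply 0).smulRight (Finsupp.single 0 (-2) + Finsupp.single 1 κ)

lemma U_apply (κ : ℝ) (a : ℕ →₀ ℝ) :
    U κ a = a + a 0 • (Finsupp.single 0 (-2) + Finsupp.single 1 κ) := by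
  simp [U]

lemma U_zero (κ : ℝ) (a : ℕ →₀ ℝ) : U κ a 0 = - a 0 := by
  rw [U_apply]; simp; ring

lemma U_U (κ : ℝ) (a : ℕ →₀ ℝ) : U κ (U κ a) = a := by
  rw [U_apply κ (U κ a), U_zero, U_apply, neg_smul]; abel

/-- the linear equivalence given by `U κ` -/
noncomputable def Ueq (κ : ℝ) : (ℕ →₀ ℝ) ≃ₗ[ℝ] (ℕ →₀ ℝ) :=
  LinearEquiv.ofInvolutive (U κ) (U_U κ)

lemma lc_U {Y : Type*} [AddCommGroup Y] [Module ℝ Y] (w : ℕ → Y) (κ : ℝ) (a : ℕ →₀ ℝ) :
    Finsupp.linearCombination ℝ w (U κ a) =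
      Finsupp.linearCombination ℝ w a + a 0 • ((-2 : ℝ) • w 0 + κ • w 1) := by
  rw [U_apply, map_add, map_smul, map_add, Finsupp.linearCombination_single,
    Finsupp.linearCombination_single]

/-- modification of a chain `σ` with `σ 0 = 1`, `σ 1 = 2` -/
def md (σ : ℕ → ℕ) (c0 c2 : ℕ) : ℕ → ℕ := fun k => if k = 0 then c0 else if σ k = 2 then c2 else σ k

section full
variable {σ : ℕ → ℕ} (hσ : Ch σ) (h0 : σ 0 = 1) (h1 : σ 1 = 2)
include hσ h0 h1

omit h0 in
lemma ne_one {k : ℕ} (hk : k ≠ 0) : σ k ≠ 1 := by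
  intro h
  have := (hσ k 0 h).2 1 (by omega) (by omega)
  omega

omit h0 in
lemma ch_md02 : Ch (md σ 0 2) := by
  intro k p hk
  by_cases hk0 : k = 0
  · simp [md, hk0] at hk
  have hk' : σ k = p + 1 := by
    simp only [md, if_neg hk0] at hk
    split_ifs at hk with h2
    · omega
    · exact hk
  have hp : p ≠ 0 := by rintro rfl; exact ne_one hσ h1 hk0 hk'
  refine ⟨(hσ k p hk').1, fun j hj hjk => ?_⟩
  have := (hσ k p hk').2 j hj hjk
  have hj0 : j ≠ 0 := by omega
  simp only [md, if_neg hj0]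
  split_ifs with h2
  · omega
  · exact this

omit h0 in
lemma ch_md11 : Ch (md σ 1 1) := by
  intro k p hk
  by_cases hk0 : k = 0
  · subst hk0
    simp only [md, if_pos] at hk
    obtain rfl : p = 0 := by omega
    refine ⟨le_rfl, fun j _ hj => ?_⟩
    obtain rfl : j = 0 := by omega
    simp [md]
  by_cases h2 : σ k = 2
  · simp only [md, if_neg hk0, if_pos h2] at hk
    obtain rfl : p = 0 := by omega
    refine ⟨Nat.zero_le _, fun j _ hj => ?_⟩
    by_cases hj0 : j = 0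
    · simp [md, hj0]
    · have := (hσ k 1 h2).2 j (by omega) hj
      simp [md, hj0, this]
  · simp only [md, if_neg hk0, if_neg h2] at hk
    have hp : p ≠ 0 := by rintro rfl; exact ne_one hσ h1 hk0 hk
    refine ⟨(hσ k p hk).1, fun j hj hjk => ?_⟩
    have := (hσ k p hk).2 j hj hjk
    have hj0 : j ≠ 0 := by omega
    have hj2 : σ j ≠ 2 := by omega
    simp only [md, if_neg hj0, if_neg hj2]
    exact this

omit h0 in
lemma ch_md10 : Ch (md σ 1 0) := by
  intro k p hk
  by_cases hk0 : k = 0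
  · subst hk0
    simp only [md, if_pos] at hk
    obtain rfl : p = 0 := by omega
    refine ⟨le_rfl, fun j _ hj => ?_⟩
    obtain rfl : j = 0 := by omega
    simp [md]
  by_cases h2 : σ k = 2
  · simp [md, hk0, h2] at hk
  · simp only [md, if_neg hk0, if_neg h2] at hk
    have hp : p ≠ 0 := by rintro rfl; exact ne_one hσ h1 hk0 hk
    refine ⟨(hσ k p hk).1, fun j hj hjk => ?_⟩
    have := (hσ k p hk).2 j hj hjk
    have hj0 : j ≠ 0 := by omega
    have hj2 : σ j ≠ 2 := by omega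
    simp only [md, if_neg hj0, if_neg hj2]
    exact this

omit hσ h1 in
lemma md12 : md σ 1 2 = σ := by
  ext k
  by_cases hk0 : k = 0
  · simp [md, hk0, h0]
  · by_cases h2 : σ k = 2
    · simp [md, hk0, h2]
    · simp [md, hk0, h2]

end full

/-- the part of the value of a chain living in the span of `x i`, `i ≥ 2` -/
noncomputable def Z (x : ℕ → X) (σ : ℕ → ℕ) : (ℕ →₀ ℝ) →ₗ[ℝ] X :=
  Finsupp.linearCombination ℝ (fun k => if σ k ≤ 2 then 0 else xo x (σ k))

noncomputable def bt (σ : ℕ → ℕ) : (ℕ →₀ ℝ) →ₗ[ℝ] ℝ :=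
  Finsupp.linearCombination ℝ (fun k => if σ k = 2 then 1 else 0)

/-- the span of `x i`, `i ≥ 2` -/
def W (x : ℕ → X) : Submodule ℝ X := Submodule.span ℝ {v | ∃ i, 2 ≤ i ∧ v = x i}

lemma Z_mem (x : ℕ → X) (σ : ℕ → ℕ) (a : ℕ →₀ ℝ) : Z x σ a ∈ W x := by
  rw [Z, Finsupp.linearCombination_apply]
  refine Submodule.sum_mem _ fun k _ => Submodule.smul_mem _ _ ?_
  by_cases h : σ k ≤ 2
  · rw [if_pos h]; exact Submodule.zero_mem _
  · rw [if_neg h]
    obtain ⟨p, hp⟩ : ∃ p, σ k = p + 1 := ⟨σ k - 1, by omega⟩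
    rw [hp]
    exact Submodule.subset_span ⟨p, by omega, rfl⟩

lemma L_md (x : ℕ → X) {σ : ℕ → ℕ} (hσ : Ch σ) (h0 : σ 0 = 1) (h1 : σ 1 = 2) (c0 c2 : ℕ)
    (a : ℕ →₀ ℝ) : L x (md σ c0 c2) a = a 0 • xo x c0 + bt σ a • xo x c2 + Z x σ a := by
  have : L x (md σ c0 c2) = (Finsupp.lapply 0 : (ℕ →₀ ℝ) →ₗ[ℝ] ℝ).smulRight (xo x c0)
      + (bt σ).smulRight (xo x c2) + Z x σ := by
    ext k
    simp only [LinearMap.comp_apply, Finsupp.lsingle_apply, L_single, one_smul,
      LinearMap.add_apply, LinearMap.smulRight_apply, Finsupp.lapply_apply, bt, Z,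
      Finsupp.linearCombination_single, smul_eq_mul, one_mul]
    by_cases hk0 : k = 0
    · subst hk0
      simp [md, h0]
    · by_cases h2 : σ k = 2
      · simp [md, hk0, h2]
      · have h3 := ne_one hσ h1 hk0
        simp only [md, if_neg hk0, if_neg h2, Finsupp.single_apply, zero_smul, zero_add]
        by_cases h4 : σ k ≤ 2
        · have : σ k = 0 := by omega
          simp [this, xo]
        · simp [h4]
  rw [this]; rfl

lemma bt_U {σ : ℕ → ℕ} (h0 : σ 0 = 1) (h1 : σ 1 = 2) (κ : ℝ) (a : ℕ →₀ ℝ) :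
    bt σ (U κ a) = bt σ a + κ * a 0 := by
  rw [bt, lc_U]; simp [h0, h1, mul_comm]

lemma Z_U (x : ℕ → X) {σ : ℕ → ℕ} (hσ : Ch σ) (κ : ℝ) (a : ℕ →₀ ℝ) :
    Z x σ (U κ a) = Z x σ a := by
  have h0 := hσ.le 0
  have h1 := hσ.le 1
  rw [Z, lc_U, if_pos (by omega), if_pos (by omega)]; simp

/-- the conditions on the norm -/
def Cond (x : ℕ → X) (κ : ℝ) : Prop :=
  (∀ α : ℝ, ∀ z ∈ W x, ‖(-α) • x 0 + z‖ ≤ ‖α • x 0 + z‖) ∧
  ∀ α β : ℝ, ∀ z ∈ W x, ∀ M : ℝ, ‖β • x 1 + z‖ ≤ M → ‖α • x 0 + β • x 1 + z‖ ≤ M →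
    ‖(α + β) • x 0 + z‖ ≤ M → ‖α • x 0 + z‖ ≤ M →
    ‖(β + κ * α) • x 1 + z‖ ≤ M ∧ ‖(-α) • x 0 + (β + κ * α) • x 1 + z‖ ≤ M ∧
      ‖(-α + (β + κ * α)) • x 0 + z‖ ≤ M

lemma jn_U_le {x : ℕ → X} {κ : ℝ} (h : Cond x κ) (a : ℕ →₀ ℝ) : jn x (U κ a) ≤ jn x a := by
  obtain ⟨hc1, hc2⟩ := h
  refine jn_le x fun τ hτ => ?_
  have hτ0 := hτ.le 0
  have hτ1 := hτ.le 1
  -- the main estimates for full split chains
  have main : ∀ σ, Ch σ → σ 0 = 1 → σ 1 = 2 → ∀ c0 c2, (c0 = 0 ∧ c2 = 2) ∨ (c0 = 1 ∧ c2 = 2) ∨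
      (c0 = 1 ∧ c2 = 1) → ‖L x (md σ c0 c2) (U κ a)‖ ≤ jn x a := by
    intro σ hσ h0 h1 c0 c2 hcc
    have e1 := le_jn x (ch_md02 hσ h1) a
    have e2 := le_jn x hσ a
    rw [← md12 h0] at e2
    have e3 := le_jn x (ch_md11 hσ h1) a
    have e4 := le_jn x (ch_md10 hσ h1) a
    rw [L_md x hσ h0 h1] at e1 e2 e3 e4
    rw [L_md x hσ h0 h1, U_zero, bt_U h0 h1, Z_U x hσ]
    have hz := Z_mem x σ a
    simp only [xo, smul_zero, zero_add, add_zero] at e1 e2 e3 e4
    rw [← add_smul] at e3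
    obtain ⟨f1, f2, f3⟩ := hc2 (a 0) (bt σ a) _ hz (jn x a) e1 e2 e3 e4
    rcases hcc with ⟨rfl, rfl⟩ | ⟨rfl, rfl⟩ | ⟨rfl, rfl⟩
    · simpa [xo] using f1
    · simpa [xo] using f2
    · simp only [xo]
      rw [← add_smul]; exact f3
  rcases (show τ 1 = 0 ∨ τ 1 = 1 ∨ τ 1 = 2 by omega) with h1 | h1 | h1
  · -- index 1 in no interval
    have hne1 : ∀ k, k ≠ 0 → τ k ≠ 1 := by
      intro k hk h
      have := (hτ k 0 h).2 1 (by omega) (by omega)
      omega
    have hne2 : ∀ k, τ k ≠ 2 := by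
      intro k h
      have := (hτ k 1 h).2 1 (by omega) (hτ k 1 h).1
      omega
    have hL : ∀ b : ℕ →₀ ℝ, L x τ b = b 0 • xo x (τ 0) + Z x τ b := by
      intro b
      have : L x τ = (Finsupp.lapply 0 : (ℕ →₀ ℝ) →ₗ[ℝ] ℝ).smulRight (xo x (τ 0)) + Z x τ := by
        ext k
        simp only [LinearMap.comp_apply, Finsupp.lsingle_apply, L_single, one_smul,
          LinearMap.add_apply, LinearMap.smulRight_apply, Finsupp.lapply_apply, Z,
          Finsupp.linearCombination_single]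
        by_cases hk0 : k = 0
        · subst hk0
          have : τ 0 ≤ 2 := by omega
          simp [this]
        · simp only [Finsupp.single_apply, if_neg hk0, zero_smul, zero_add]
          by_cases h4 : τ k ≤ 2
          · have h5 := hne1 k hk0
            have h6 := hne2 k
            have : τ k = 0 := by omega
            simp [this, xo]
          · simp [h4]
      rw [this]; rfl
    have h2 := le_jn x hτ a
    rw [hL] at h2
    rw [hL, U_zero, Z_U x hτ]
    rcases (show τ 0 = 0 ∨ τ 0 = 1 by omega) with h0 | h0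
    · rw [h0] at h2 ⊢
      simpa [xo] using h2
    · rw [h0] at h2 ⊢
      exact (hc1 (a 0) _ (Z_mem x τ a)).trans h2
  · -- indices 0 and 1 in the same interval
    have h0 : τ 0 = 1 := (hτ 1 0 h1).2 0 le_rfl (by omega)
    have hne2 : ∀ k, τ k ≠ 2 := by
      intro k h
      have := (hτ k 1 h).2 1 (by omega) (hτ k 1 h).1
      omega
    let σ : ℕ → ℕ := fun k => if k = 0 then 1 else if τ k = 1 then 2 else τ k
    have hσ : Ch σ := by
      intro k p hk
      by_cases hk0 : k = 0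
      · subst hk0
        simp only [σ, if_pos] at hk
        obtain rfl : p = 0 := by omega
        refine ⟨le_rfl, fun j _ hj => ?_⟩
        obtain rfl : j = 0 := by omega
        simp [σ]
      by_cases h2 : τ k = 1
      · simp only [σ, if_neg hk0, if_pos h2] at hk
        obtain rfl : p = 1 := by omega
        refine ⟨by omega, fun j hj hjk => ?_⟩
        have := (hτ k 0 h2).2 j (by omega) hjk
        have hj0 : j ≠ 0 := by omega
        simp [σ, hj0, this]
      · simp only [σ, if_neg hk0, if_neg h2] at hk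
        refine ⟨(hτ k p hk).1, fun j hj hjk => ?_⟩
        have h5 := (hτ k p hk).2 j hj hjk
        have hj0 : j ≠ 0 := by omega
        have hj1 : τ j ≠ 1 := by omega
        simp only [σ, if_neg hj0, if_neg hj1]
        exact h5
    have hτσ : τ = md σ 1 1 := by
      ext k
      by_cases hk0 : k = 0
      · simp [md, hk0, h0]
      · by_cases h2 : τ k = 1
        · simp [md, σ, hk0, h2]
        · have := hne2 k
          simp [md, σ, hk0, h2, this]
    rw [hτσ]
    exact main σ hσ (by simp [σ]) (by simp [σ, h1]) 1 1 (by simp)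
  · -- an interval starts at 1
    let σ : ℕ → ℕ := fun k => if k = 0 then 1 else τ k
    have hne1 : ∀ k, k ≠ 0 → τ k ≠ 1 := by
      intro k hk h
      have := (hτ k 0 h).2 1 (by omega) (by omega)
      omega
    have hσ : Ch σ := by
      intro k p hk
      by_cases hk0 : k = 0
      · subst hk0
        simp only [σ, if_pos] at hk
        obtain rfl : p = 0 := by omega
        refine ⟨le_rfl, fun j _ hj => ?_⟩
        obtain rfl : j = 0 := by omega
        simp [σ]
      · simp only [σ, if_neg hk0] at hk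
        have hp : p ≠ 0 := by rintro rfl; exact hne1 k hk0 hk
        refine ⟨(hτ k p hk).1, fun j hj hjk => ?_⟩
        have hj0 : j ≠ 0 := by omega
        simp [σ, hj0, (hτ k p hk).2 j hj hjk]
    have hτσ : τ = md σ (τ 0) 2 := by
      ext k
      by_cases hk0 : k = 0
      · simp [md, hk0]
      · by_cases h2 : τ k = 2
        · simp [md, σ, hk0, h2]
        · simp [md, σ, hk0, h2]
    rw [hτσ]
    exact main σ hσ (by simp [σ]) (by simp [σ, h1]) (τ 0) 2 (by omega)

lemma jn_U {x : ℕ → X} {κ : ℝ} (h : Cond x κ) (a : ℕ →₀ ℝ) : jn x (U κ a) = jn x a := by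
  refine le_antisymm (jn_U_le h a) ?_
  have := jn_U_le h (U κ a)
  rwa [U_U] at this

/-- a nontrivial isometry -/
theorem exists_nontrivial {x : ℕ → X} {κ : ℝ} (h : Cond x κ) (h0 : x 0 ≠ 0) (h2 : x 2 ≠ 0) :
    ∃ T : Jamesification x ≃ₗᵢ[ℝ] Jamesification x,
      T ≠ LinearIsometryEquiv.refl ℝ _ ∧ T ≠ LinearIsometryEquiv.neg ℝ := by
  have hJ := isJ_toJ x
  let T : Jamesification x ≃ₗᵢ[ℝ] Jamesification x :=
    (Ueq κ).extendOfIsometry (toJ x) (toJ x) hJ.dense hJ.dense (fun a => by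
      rw [hJ.norm_eq, hJ.norm_eq]; exact jn_U h a)
  have hT : ∀ a, T (toJ x a) = toJ x (U κ a) := fun a =>
    LinearEquiv.extendOfIsometry_eq _ _ _ _ _ _ a
  have hinj : ∀ a : ℕ →₀ ℝ, toJ x a = 0 → ∀ k, a k • x k = 0 := by
    intro a ha k
    have h3 := hJ.norm_eq a
    rw [ha, norm_zero] at h3
    have h4 := le_jn x (ch_sing' k) a
    rw [← h3] at h4
    have h5 : L x (fun i => if i = k then k + 1 else 0) a = a k • x k := by
      have : L x (fun i => if i = k then k + 1 else 0) =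
          (Finsupp.lapply k : (ℕ →₀ ℝ) →ₗ[ℝ] ℝ).smulRight (x k) := by
        ext i
        simp only [LinearMap.comp_apply, Finsupp.lsingle_apply, L_single, one_smul,
          LinearMap.smulRight_apply, Finsupp.lapply_apply]
        by_cases hik : i = k
        · subst hik; simp [xo]
        · simp [hik, xo]
      rw [this]; rfl
    rw [h5] at h4
    exact norm_le_zero_iff.1 h4
  refine ⟨T, fun hcon => ?_, fun hcon => ?_⟩
  · have h3 := hT (Finsupp.single 0 1)
    rw [hcon] at h3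
    simp only [LinearIsometryEquiv.coe_refl, id_eq] at h3
    have h4 : toJ x (U κ (Finsupp.single 0 1) - Finsupp.single 0 1) = 0 := by
      rw [map_sub, ← h3, sub_self]
    have h5 := hinj _ h4 0
    rcases smul_eq_zero.1 h5 with h5 | h5
    · rw [Finsupp.sub_apply, U_zero, Finsupp.single_eq_same] at h5
      norm_num at h5
    · exact h0 h5
  · have h3 := hT (Finsupp.single 2 1)
    rw [hcon] at h3
    have h6 : U κ (Finsupp.single 2 1) = Finsupp.single 2 1 := by
      rw [U_apply]; simp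
    rw [h6, LinearIsometryEquiv.coe_neg] at h3
    have h4 : toJ x (Finsupp.single 2 1 + Finsupp.single 2 1) = 0 := by
      rw [map_add]
      nth_rewrite 1 [← h3]
      exact neg_add_cancel _
    have h5 := hinj _ h4 2
    rcases smul_eq_zero.1 h5 with h5 | h5
    · rw [Finsupp.add_apply, Finsupp.single_eq_same] at h5
      norm_num at h5
    · exact h2 h5

end Pool.Agent.Jam
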