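import Pool.Agent.Work.MP_8db9c5_an.H71.Main

namespace Pool.Agent.Jam

open Finset Filter Topology

variable {X : Type*} [NormedAddCommGroup X] [NormedSpace ℝ X]
variable {J : Type*} [NormedAddCommGroup J] [NormedSpace ℝ J]
variable {x : ℕ → X} {ι : (ℕ →₀ ℝ) →ₗ[ℝ] J}

/-- linear independence for `xo` -/
lemma xo_collinear (hx : Good x) {c1 c2 c3 : ℕ} (h12 : c1 ≠ c2) (h13 : c1 ≠ c3) (h23 : c2 ≠ c3)
    (t : ℝ) : xo x c3 ≠ xo x c1 + t • (xo x c2 - xo x c1) := by
  let so : ℕ → (ℕ →₀ ℝ) := fun c => Nat.casesOn c 0 (fun p => Finsupp.single p 1)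
  have hso : ∀ c, Finsupp.linearCombination ℝ x (so c) = xo x c := by
    intro c
    cases c with
    | zero => simp [so, xo]
    | succ p => simp [so, xo]
  intro h
  rw [← hso, ← hso, ← hso, ← map_sub, ← map_smul, ← map_add] at h
  have h' := hx.lin h
  have hs : ∀ c p, so c p = if c = p + 1 then 1 else 0 := by
    intro c p
    cases c with
    | zero => simp [so]
    | succ q =>
      by_cases hq : q = p
      · simp [so, hq]
      · simp [so, hq]
  have hev : ∀ p, so c3 p = so c1 p + t * (so c2 p - so c1 p) := by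
    intro p
    have := congrArg (fun f => f p) h'
    simpa using this
  rcases Nat.eq_zero_or_pos c3 with h3 | h3
  · -- c1, c2 nonzero
    obtain ⟨p1, hp1⟩ : ∃ p, c1 = p + 1 := ⟨c1 - 1, by omega⟩
    obtain ⟨p2, hp2⟩ : ∃ p, c2 = p + 1 := ⟨c2 - 1, by omega⟩
    have e1 := hev p1
    have e2 := hev p2
    rw [hs, hs, hs, if_neg (by omega), if_pos hp1, if_neg (by omega)] at e1
    rw [hs, hs, hs, if_neg (by omega), if_neg (by omega), if_pos hp2] at e2
    linarith
  · obtain ⟨p3, hp3⟩ : ∃ p, c3 = p + 1 := ⟨c3 - 1, by omega⟩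
    have e3 := hev p3
    rw [hs, hs, hs, if_pos hp3, if_neg (by omega), if_neg (by omega)] at e3
    linarith

/-- the vector `∑ 2^{-(k+1)} e_{m+k}` -/
noncomputable def zb (ι : (ℕ →₀ ℝ) →ₗ[ℝ] J) (m : ℕ) : J :=
  ∑' k : ℕ, ((1 / 2 : ℝ) ^ (k + 1)) • e ι (m + k)

lemma hasSum_half : HasSum (fun k : ℕ => (1 / 2 : ℝ) ^ (k + 1)) 1 := by
  have := (hasSum_geometric_two).mul_left (1 / 2 : ℝ)
  simp only [pow_succ]
  convert! this using 1
  · ext k; ring
  · norm_num

section
variable [CompleteSpace J]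

omit [CompleteSpace J] in
lemma zb_summable (hx : Good x) (hJ : IsJ x ι) (m : ℕ) :
    Summable (fun k : ℕ => ‖((1 / 2 : ℝ) ^ (k + 1)) • e ι (m + k)‖) := by
  refine Summable.of_nonneg_of_le (fun k => norm_nonneg _) (fun k => ?_) hasSum_half.summable
  rw [norm_smul, Real.norm_eq_abs, abs_of_nonneg (by positivity)]
  exact mul_le_of_le_one_right (by positivity) (norm_e_le hx hJ _)

lemma zb_hasSum (hx : Good x) (hJ : IsJ x ι) (m : ℕ) :
    HasSum (fun k : ℕ => ((1 / 2 : ℝ) ^ (k + 1)) • e ι (m + k)) (zb ι m) :=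
  (zb_summable hx hJ m).of_norm.hasSum

omit [CompleteSpace J] in
lemma zb_norm_le (hx : Good x) (hJ : IsJ x ι) (m : ℕ) : ‖zb ι m‖ ≤ 1 := by
  rw [zb]
  refine (norm_tsum_le_tsum_norm (zb_summable hx hJ m)).trans ?_
  refine hasSum_le (fun k => ?_) (zb_summable hx hJ m).hasSum hasSum_half
  rw [norm_smul, Real.norm_eq_abs, abs_of_nonneg (by positivity)]
  exact mul_le_of_le_one_right (by positivity) (norm_e_le hx hJ _)

/-- a functional equal to `1` at all `e k`, `k ≥ m`, is `1` at `zb m` -/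
lemma zb_fun (hx : Good x) (hJ : IsJ x ι) (m : ℕ) (f : J →L[ℝ] ℝ) (hf : ∀ k, f (e ι (m + k)) = 1) :
    f (zb ι m) = 1 := by
  have h1 := f.hasSum (zb_hasSum hx hJ m)
  simp only [map_smul, hf, smul_eq_mul, mul_one] at h1
  exact h1.unique hasSum_half

variable [CompleteSpace X] [StrictConvexSpace ℝ X]

/-- if `C σ (T zb) ` has norm one then `C σ (T e k)` is constant -/
lemma const_of_norming (hx : Good x) (hJ : IsJ x ι) (T : J ≃ₗᵢ[ℝ] J) (m : ℕ) {σ : ℕ → ℕ}
    (hσ : Ch σ) (hn : ‖C x ι σ (T (zb ι m))‖ = 1) :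
    ∀ k, C x ι σ (T (e ι (m + k))) = C x ι σ (T (zb ι m)) := by
  refine hasSum_const (fun k => ?_) ?_ hn
  · refine (C_le hJ hσ _).trans ?_
    rw [T.norm_map]; exact norm_e_le hx hJ _
  · have h1 := ((C x ι σ).comp (T.toContinuousLinearEquiv : J →L[ℝ] J)).hasSum (zb_hasSum hx hJ m)
    simpa using h1

/-- Step 1 -/
lemma step1 (hx : Good x) (hJ : IsJ x ι) (T : J ≃ₗᵢ[ℝ] J) :
    (∀ z, Sm ι (T z) = Sm ι z) ∨ (∀ z, Sm ι (T z) = - Sm ι z) := by
  obtain ⟨σ, hσ, hn⟩ := exists_norming hJ (T (zb ι 0))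
  have hz1 : ‖zb ι 0‖ = 1 := by
    refine le_antisymm (zb_norm_le hx hJ 0) ?_
    have h1 := Sm_le hx hJ (zb ι 0)
    rw [zb_fun hx hJ 0 (Sm ι) (fun k => Sm_e hx hJ _)] at h1
    simpa using h1
  rw [T.norm_map, hz1] at hn
  have hc := const_of_norming hx hJ T 0 hσ hn
  simp only [zero_add] at hc
  set v := C x ι σ (T (zb ι 0)) with hv
  -- `C σ ∘ T = S ⊗ v`
  have hCT : (C x ι σ).comp (T.toContinuousLinearEquiv : J →L[ℝ] J) = (Sm ι).smulRight v := by
    refine ext_e hJ.dense fun k => ?_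
    simp only [ContinuousLinearMap.comp_apply, ContinuousLinearMap.smulRight_apply, Sm_e hx hJ,
      one_smul]
    exact hc k
  have hCT' : ∀ z, C x ι σ (T z) = Sm ι z • v := by
    intro z
    exact congrArg (fun f => f z) hCT
  have hC : ∀ y, C x ι σ y = Sm ι (T.symm y) • v := by
    intro y
    have := hCT' (T.symm y)
    rwa [T.apply_symm_apply] at this
  have hv0 : v ≠ 0 := by intro h; rw [h, norm_zero] at hn; exact zero_ne_one hn
  -- some index is in the chain
  obtain ⟨k0, hk0⟩ : ∃ k, σ k ≠ 0 := by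
    by_contra hcon
    push Not at hcon
    have : C x ι σ = 0 := by
      refine ext_e hJ.dense fun k => ?_
      rw [C_e hJ hσ, hcon k]; simp [xo]
    apply hv0
    rw [hv, this]; simp
  obtain ⟨p, hp⟩ : ∃ p, σ k0 = p + 1 := ⟨σ k0 - 1, by omega⟩
  have hxp : x p = Sm ι (T.symm (e ι k0)) • v := by
    rw [← hC, C_e hJ hσ, hp]; rfl
  have hcoef : Sm ι (T.symm (e ι k0)) ≠ 0 := by
    intro h0
    rw [h0, zero_smul] at hxp
    have := hx.norm_one p
    rw [hxp, norm_zero] at this; exact zero_ne_one this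
  have hvp : v = (Sm ι (T.symm (e ι k0)))⁻¹ • x p := by
    rw [hxp, smul_smul, inv_mul_cancel₀ hcoef, one_smul]
  -- all values are `0` or `p + 1`
  have hval : ∀ k, σ k = 0 ∨ σ k = p + 1 := by
    intro k
    by_contra hcon
    push Not at hcon
    have h1 : xo x (σ k) = xo x 0 +
        (Sm ι (T.symm (e ι k)) * (Sm ι (T.symm (e ι k0)))⁻¹) • (xo x (p + 1) - xo x 0) := by
      rw [← C_e hJ hσ k, hC, hvp]
      simp only [xo, zero_add, sub_zero, smul_smul]
    exact xo_collinear hx (by omega) (Ne.symm hcon.1) (Ne.symm hcon.2) _ h1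
  have hsl : slev σ p = σ := by
    ext k
    rcases hval k with h | h
    · simp [slev, h]
    · simp [slev, h]
  have hCf : ∀ y, C x ι σ y = fl ι σ p y • x p := by
    intro y
    have := C_slev hx hJ hσ p y
    rwa [hsl] at this
  have hf1 : ∀ k, |fl ι σ p (T (e ι k))| = 1 := by
    intro k
    have h1 := hc k
    rw [hCf] at h1
    have h2 := congrArg norm h1
    rw [norm_smul, hx.norm_one, mul_one, hn] at h2
    exact h2
  -- every index is in level `p`
  have hall : ∀ j, σ j = p + 1 := by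
    intro j
    by_contra hj
    have h1 : ∀ k, co ι j (T (e ι k)) = 0 := fun k =>
      lemM hx hJ hσ hj (by rw [T.norm_map]; exact norm_e_le hx hJ k) (hf1 k)
    have h2 : (co ι j).comp (T.toContinuousLinearEquiv : J →L[ℝ] J) = 0 := by
      refine ext_e hJ.dense fun k => ?_
      simpa using h1 k
    have h3 := congrArg (fun f => f (T.symm (e ι j))) h2
    simp [co_e hx hJ] at h3
  have hp0 : p = 0 := by
    have := (hσ 0 p (hall 0)).1; omega
  subst hp0
  have hσ1 : σ = fun _ => 1 := by ext k; simpa using hall k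
  have hS : ∀ y, C x ι σ y = Sm ι y • x 0 := by
    intro y; rw [hCf, hσ1]; rfl
  -- conclusion
  have h0 : v = Sm ι (T (e ι 0)) • x 0 := by rw [← hS, hc 0]
  have habs : |Sm ι (T (e ι 0))| = 1 := by
    have := congrArg norm h0
    rw [norm_smul, hx.norm_one, mul_one, hn] at this
    exact this.symm
  have hx0 : x 0 ≠ 0 := by
    intro h; have := hx.norm_one 0; rw [h, norm_zero] at this; exact zero_ne_one this
  have hfin : ∀ z, Sm ι (T z) = Sm ι z * Sm ι (T (e ι 0)) := by
    intro z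
    have h1 := hCT' z
    rw [hS, h0, smul_smul] at h1
    exact smul_left_injective ℝ hx0 h1
  rcases (abs_eq (zero_le_one' ℝ)).1 habs with h | h
  · left; intro z; rw [hfin, h, mul_one]
  · right; intro z; rw [hfin, h]; ring

/-- a continuous linear map vanishing at `e k`, `k ≥ m`, vanishes where the first `m` coordinates
vanish -/
lemma ext_m (hx : Good x) (hJ : IsJ x ι) {Y : Type*} [NormedAddCommGroup Y] [NormedSpace ℝ Y]
    (m : ℕ) {D : J →L[ℝ] Y} (hD : ∀ k, m ≤ k → D (e ι k) = 0) {y : J}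
    (hy : ∀ j, j < m → co ι j y = 0) : D y = 0 := by
  have : D = ∑ j ∈ range m, (co ι j).smulRight (D (e ι j)) := by
    refine ext_e hJ.dense fun k => ?_
    rw [_root_.sum_apply]
    simp only [ContinuousLinearMap.smulRight_apply, co_e hx hJ]
    by_cases hk : k < m
    · rw [Finset.sum_eq_single k]
      · simp
      · intro j _ hjk; simp [Ne.symm hjk]
      · intro hk'; simp [hk] at hk'
    · rw [Finset.sum_eq_zero]
      · exact hD k (by omega)
      · intro j hj
        have : k ≠ j := by rintro rfl; simp at hj; exact hk hj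
        simp [this]
  rw [this, _root_.sum_apply]
  refine Finset.sum_eq_zero fun j hj => ?_
  rw [ContinuousLinearMap.smulRight_apply, hy j (by simpa using hj), zero_smul]

omit [StrictConvexSpace ℝ X] [CompleteSpace J] [CompleteSpace X] in
lemma pair_zero (hx : Good x) {i j : ℕ} (hij : i ≠ j) {α β : ℝ} (h : α • x i + β • x j = 0) :
    α = 0 := by
  by_contra hα
  have h1 := hx.bj i j hij (β / α)
  have h2 : x i + (β / α) • x j = α⁻¹ • (α • x i + β • x j) := by
    rw [smul_add, smul_smul, smul_smul, inv_mul_cancel₀ hα, one_smul, div_eq_inv_mul]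
  rw [h2, h, smul_zero, norm_zero] at h1
  linarith

omit [CompleteSpace J] [CompleteSpace X] in
lemma tau (hx : Good x) {i j : ℕ} (hij : i ≠ j) {τ : ℝ} (h : ‖(1 - τ) • x i + τ • x j‖ = 1) :
    τ = 0 ∨ τ = 1 := by
  by_contra hcon
  push Not at hcon
  obtain ⟨h0, h1⟩ := hcon
  have h1' : 1 - τ ≠ 0 := sub_ne_zero.2 (Ne.symm h1)
  have ha : |1 - τ| < 1 := by
    by_contra hge
    push Not at hge
    have h2 : ‖(1 : ℝ) • x i + (τ / (1 - τ)) • x j‖ ≤ 1 := by
      have h3 : (1 : ℝ) • x i + (τ / (1 - τ)) • x j = (1 - τ)⁻¹ • ((1 - τ) • x i + τ • x j) := by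
        rw [smul_add, smul_smul, smul_smul, inv_mul_cancel₀ h1', div_eq_inv_mul]
      rw [h3, norm_smul, h, mul_one, norm_inv, Real.norm_eq_abs]
      exact inv_le_one_of_one_le₀ hge
    have h4 := hx.eq_zero hij (by norm_num) h2
    rcases div_eq_zero_iff.1 h4 with h5 | h5
    · exact h0 h5
    · exact h1' h5
  have hb : |τ| < 1 := by
    by_contra hge
    push Not at hge
    have h2 : ‖(1 : ℝ) • x j + ((1 - τ) / τ) • x i‖ ≤ 1 := by
      have h3 : (1 : ℝ) • x j + ((1 - τ) / τ) • x i = τ⁻¹ • ((1 - τ) • x i + τ • x j) := by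
        rw [smul_add, smul_smul, smul_smul, inv_mul_cancel₀ h0, div_eq_inv_mul, add_comm]
      rw [h3, norm_smul, h, mul_one, norm_inv, Real.norm_eq_abs]
      exact inv_le_one_of_one_le₀ hge
    have h4 := hx.eq_zero (Ne.symm hij) (by norm_num) h2
    rcases div_eq_zero_iff.1 h4 with h5 | h5
    · exact h1' h5
    · exact h0 h5
  rw [abs_lt] at ha hb
  have hne : x i ≠ x j := fun h => hij (hx.lin.injective h)
  have h6 := norm_combo_lt_of_ne (x := x i) (y := x j) (r := 1) (a := 1 - τ) (b := τ)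
    (hx.norm_one i).le (hx.norm_one j).le hne (by linarith) (by linarith) (by ring)
  linarith

omit [CompleteSpace X] [StrictConvexSpace ℝ X] [CompleteSpace J] in
lemma xo_inj (hx : Good x) {c1 c2 : ℕ} (h : xo x c1 = xo x c2) : c1 = c2 := by
  rcases c1 with _ | p1 <;> rcases c2 with _ | p2
  · rfl
  · simp only [xo] at h
    have := hx.norm_one p2
    rw [← h, norm_zero] at this; exact absurd this zero_ne_one
  · simp only [xo] at h
    have := hx.norm_one p1
    rw [h, norm_zero] at this; exact absurd this zero_ne_one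
  · simp only [xo] at h
    rw [hx.lin.injective h]

lemma step2_comb (hx : Good x) (hJ : IsJ x ι) (T : J ≃ₗᵢ[ℝ] J) (m : ℕ) {σ : ℕ → ℕ} (hσ : Ch σ)
    {v u : X} {g : ℕ → ℝ}
    (hco0 : ∀ i, m < i → ∀ j, j < m → co ι j (T (e ι i)) = 0)
    (hc' : ∀ i, m < i → C x ι σ (T (e ι i)) = v) (hv : ‖v‖ = 1)
    (hline : ∀ k, m ≤ k → xo x (σ k) = v + g k • u)
    {k1 k2 : ℕ} (hk1 : m ≤ k1) (hk2 : m ≤ k2) (hk12 : σ k1 ≠ σ k2) :
    ∃ p, (∃ j, m ≤ j ∧ σ j ≠ p + 1) ∧ ∀ i, m < i → |fl ι σ p (T (e ι i))| = 1 := by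
  have hg : g k2 - g k1 ≠ 0 := by
    intro h0
    apply hk12
    refine xo_inj hx ?_
    rw [hline k1 hk1, hline k2 hk2, sub_eq_zero.1 h0]
  have hdiff : xo x (σ k2) - xo x (σ k1) = (g k2 - g k1) • u := by
    rw [hline k1 hk1, hline k2 hk2, sub_smul]; abel
  have hu : u = (g k2 - g k1)⁻¹ • (xo x (σ k2) - xo x (σ k1)) := by
    rw [hdiff, smul_smul, inv_mul_cancel₀ hg, one_smul]
  have hval : ∀ k, m ≤ k → σ k = σ k1 ∨ σ k = σ k2 := by
    intro k hk
    by_contra hcon
    push Not at hcon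
    refine xo_collinear hx hk12 (Ne.symm hcon.1) (Ne.symm hcon.2)
      ((g k - g k1) * (g k2 - g k1)⁻¹) ?_
    rw [mul_smul, ← hu, hline k hk, hline k1 hk1, sub_smul]; abel
  -- one value zero
  have case1 : ∀ p, (∀ k, m ≤ k → σ k = 0 ∨ σ k = p + 1) →
      ∀ i, m < i → |fl ι σ p (T (e ι i))| = 1 := by
    intro p hp i hi
    have h1 : (C x ι σ - (fl ι σ p).smulRight (x p)) (T (e ι i)) = 0 := by
      refine ext_m hx hJ m (fun k hk => ?_) (hco0 i hi)
      rw [_root_.sub_apply, ContinuousLinearMap.smulRight_apply, fl_e hx hJ hσ, C_e hJ hσ]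
      rcases hp k hk with h | h
      · simp [h, xo]
      · simp [h, xo]
    rw [_root_.sub_apply, ContinuousLinearMap.smulRight_apply, hc' i hi, sub_eq_zero] at h1
    rw [h1, norm_smul, hx.norm_one, mul_one] at hv
    exact hv
  rcases Nat.eq_zero_or_pos (σ k1) with h1 | h1
  · obtain ⟨p, hp⟩ : ∃ p, σ k2 = p + 1 := ⟨σ k2 - 1, by omega⟩
    refine ⟨p, ⟨k1, hk1, by omega⟩, case1 p fun k hk => ?_⟩
    rcases hval k hk with h | h
    · left; omega
    · right; omega
  rcases Nat.eq_zero_or_pos (σ k2) with h2 | h2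
  · obtain ⟨p, hp⟩ : ∃ p, σ k1 = p + 1 := ⟨σ k1 - 1, by omega⟩
    refine ⟨p, ⟨k2, hk2, by omega⟩, case1 p fun k hk => ?_⟩
    rcases hval k hk with h | h
    · right; omega
    · left; omega
  obtain ⟨p1, hp1⟩ : ∃ p, σ k1 = p + 1 := ⟨σ k1 - 1, by omega⟩
  obtain ⟨p2, hp2⟩ : ∃ p, σ k2 = p + 1 := ⟨σ k2 - 1, by omega⟩
  have hp12 : p1 ≠ p2 := by rintro rfl; exact hk12 (by omega)
  have hvτ : v = (1 - (- g k1 * (g k2 - g k1)⁻¹)) • x p1 + (- g k1 * (g k2 - g k1)⁻¹) • x p2 := by
    have h3 : v = xo x (σ k1) + (- g k1 * (g k2 - g k1)⁻¹) • (xo x (σ k2) - xo x (σ k1)) := by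
      rw [mul_smul, ← hu, hline k1 hk1, neg_smul]; abel
    rw [hp1, hp2] at h3
    simp only [xo] at h3
    rw [h3, smul_sub, sub_smul, one_smul]; abel
  have hCv : ∀ i, m < i → fl ι σ p1 (T (e ι i)) • x p1 + fl ι σ p2 (T (e ι i)) • x p2 = v := by
    intro i hi
    have h3 : (C x ι σ - ((fl ι σ p1).smulRight (x p1) + (fl ι σ p2).smulRight (x p2)))
        (T (e ι i)) = 0 := by
      refine ext_m hx hJ m (fun k hk => ?_) (hco0 i hi)
      rw [_root_.sub_apply, _root_.add_apply, ContinuousLinearMap.smulRight_apply,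
        ContinuousLinearMap.smulRight_apply, fl_e hx hJ hσ, fl_e hx hJ hσ, C_e hJ hσ]
      rcases hval k hk with h | h
      · have h4 : σ k = p1 + 1 := by omega
        have h5 : p1 ≠ p2 := hp12
        simp [h4, xo, h5]
      · have h4 : σ k = p2 + 1 := by omega
        have h5 : p2 ≠ p1 := Ne.symm hp12
        simp [h4, xo, h5]
    rw [_root_.sub_apply, _root_.add_apply, ContinuousLinearMap.smulRight_apply,
      ContinuousLinearMap.smulRight_apply, hc' i hi, sub_eq_zero] at h3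
    exact h3.symm
  set τ := - g k1 * (g k2 - g k1)⁻¹ with hτ
  rcases tau hx hp12 (by rw [← hvτ]; exact hv) with h | h
  · -- v = x p1
    refine ⟨p1, ⟨k2, hk2, by omega⟩, fun i hi => ?_⟩
    have h3 := hCv i hi
    rw [hvτ, h, sub_zero, one_smul, zero_smul, add_zero] at h3
    have h4 : (fl ι σ p1 (T (e ι i)) - 1) • x p1 + fl ι σ p2 (T (e ι i)) • x p2 = 0 := by
      rw [sub_smul, one_smul, ← sub_eq_zero.2 h3]; abel
    have h5 := pair_zero hx hp12 h4
    rw [sub_eq_zero.1 h5, abs_one]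
  · refine ⟨p2, ⟨k1, hk1, by omega⟩, fun i hi => ?_⟩
    have h3 := hCv i hi
    rw [hvτ, h, sub_self, zero_smul, one_smul, zero_add] at h3
    have h4 : (fl ι σ p2 (T (e ι i)) - 1) • x p2 + fl ι σ p1 (T (e ι i)) • x p1 = 0 := by
      rw [sub_smul, one_smul, ← sub_eq_zero.2 h3]; abel
    have h5 := pair_zero hx (Ne.symm hp12) h4
    rw [sub_eq_zero.1 h5, abs_one]

/-- Step 2 -/
lemma step2 (hx : Good x) (hJ : IsJ x ι) (T : J ≃ₗᵢ[ℝ] J) (hS : ∀ z, Sm ι (T z) = Sm ι z) (m : ℕ)
    (hm : ∀ j, j < m → T (e ι j) = e ι j ∧ ∀ z, co ι j (T z) = co ι j z) :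
    T (e ι m) = e ι m ∧ ∀ z, co ι m (T z) = co ι m z := by
  have hm' : ∀ j, j < m → ∀ z, co ι j (T.symm z) = co ι j z := by
    intro j hj z
    have := (hm j hj).2 (T.symm z)
    rw [T.apply_symm_apply] at this; exact this.symm
  have hS' : ∀ z, Sm ι (T.symm z) = Sm ι z := by
    intro z
    have := hS (T.symm z)
    rw [T.apply_symm_apply] at this; exact this.symm
  have hTn : ∀ k, ‖T (e ι k)‖ ≤ 1 := fun k => by rw [T.norm_map]; exact norm_e_le hx hJ k
  -- the test vector
  set h : J := e ι (m + 1) - e ι m with hh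
  set z0 := zb ι (m + 1) with hz0
  have hz0n : ‖z0‖ ≤ 1 := zb_norm_le hx hJ _
  -- interval `[m+1, ∞)`
  have hchI : Ch (fun k => if m + 1 ≤ k then m + 2 else 0) := by
    intro k p hk
    simp only at hk
    split_ifs at hk with h1
    obtain rfl : p = m + 1 := by omega
    refine ⟨h1, fun j h2 _ => ?_⟩
    simp [h2]
  have hI : ∀ t : ℝ, 0 ≤ t → 1 + t ≤ ‖z0 + t • h‖ := by
    intro t ht
    have h1 := fl_le hx hJ hchI (m + 1) (z0 + t • h)
    rw [map_add, map_smul, hh, map_sub, fl_e hx hJ hchI, fl_e hx hJ hchI,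
      zb_fun hx hJ (m + 1) _ (fun k => by rw [fl_e hx hJ hchI]; simp [show m + 1 ≤ m + 1 + k by omega])] at h1
    simp at h1
    exact (le_abs_self _).trans h1
  -- norming chains
  choose s hs hsn using fun n : ℕ => exists_norming hJ (T (z0 + (1 / ((n : ℝ) + 1)) • h))
  obtain ⟨σ, hσ, φ, hφ, hlim⟩ := isCompact_ch.tendsto_subseq (x := s) hs
  have hlow : ∀ n : ℕ, 1 ≤ ‖C x ι (s n) (T h)‖ ∧
      1 - (1 / ((n : ℝ) + 1)) * ‖h‖ ≤ ‖C x ι (s n) (T z0)‖ := by
    intro n
    set t : ℝ := 1 / ((n : ℝ) + 1) with ht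
    have htp : 0 < t := by positivity
    have h1 : 1 + t ≤ ‖C x ι (s n) (T (z0 + t • h))‖ := by
      rw [hsn n, T.norm_map]; exact hI t htp.le
    have h2 : ‖C x ι (s n) (T (z0 + t • h))‖ ≤ ‖C x ι (s n) (T z0)‖ + t * ‖C x ι (s n) (T h)‖ := by
      rw [map_add, map_smul, map_add, map_smul]
      refine (norm_add_le _ _).trans ?_
      rw [norm_smul, Real.norm_eq_abs, abs_of_pos htp]
    have h3 : ‖C x ι (s n) (T z0)‖ ≤ 1 := by
      refine (C_le hJ (hs n) _).trans ?_
      rw [T.norm_map]; exact hz0n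
    have h4 : ‖C x ι (s n) (T h)‖ ≤ ‖h‖ := by
      refine (C_le hJ (hs n) _).trans ?_
      rw [T.norm_map]
    constructor
    · by_contra hcon
      push Not at hcon
      nlinarith
    · nlinarith
  have hCh : 1 ≤ ‖C x ι σ (T h)‖ := by
    have h1 := (C_tendsto hJ (fun n => hs (φ n)) hσ hlim (T h)).norm
    exact ge_of_tendsto' h1 fun n => (hlow (φ n)).1
  have hCz : ‖C x ι σ (T z0)‖ = 1 := by
    refine le_antisymm ((C_le hJ hσ _).trans (by rw [T.norm_map]; exact hz0n)) ?_
    have h1 := (C_tendsto hJ (fun n => hs (φ n)) hσ hlim (T z0)).norm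
    have h2 : Tendsto (fun n : ℕ => 1 - (1 / (((φ n : ℕ) : ℝ) + 1)) * ‖h‖) atTop (𝓝 (1 - 0 * ‖h‖)) :=
      tendsto_const_nhds.sub
        (((tendsto_one_div_add_atTop_nhds_zero_nat (𝕜 := ℝ)).comp hφ.tendsto_atTop).mul_const _)
    rw [zero_mul, sub_zero] at h2
    exact le_of_tendsto_of_tendsto' h2 h1 fun n => (hlow (φ n)).2
  have hc := const_of_norming hx hJ T (m + 1) hσ hCz
  set v := C x ι σ (T z0) with hv
  have hc' : ∀ i, m < i → C x ι σ (T (e ι i)) = v := by
    intro i hi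
    have := hc (i - (m + 1))
    rwa [show m + 1 + (i - (m + 1)) = i by omega] at this
  set u := C x ι σ (T (e ι m)) - v with hu
  have hTh : C x ι σ (T h) = - u := by
    rw [hh, map_sub, map_sub, hc' (m + 1) (by omega), hu]; abel
  have hu0 : u ≠ 0 := by
    intro h0; rw [hTh, h0, neg_zero, norm_zero] at hCh; linarith
  -- the line
  have hline : ∀ k, m ≤ k → xo x (σ k) = v + co ι m (T.symm (e ι k)) • u := by
    intro k hk
    have h1 : (C x ι σ).comp (T.toContinuousLinearEquiv : J →L[ℝ] J) =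
        ∑ j ∈ range m, (co ι j).smulRight (C x ι σ (e ι j)) + (co ι m).smulRight u
          + (Sm ι - ∑ j ∈ range m, co ι j).smulRight v := by
      refine ext_e hJ.dense fun i => ?_
      have hsum : ∀ i, (∑ j ∈ range m, (co ι j)) (e ι i) = if i < m then 1 else 0 := by
        intro i
        rw [_root_.sum_apply]
        simp only [co_e hx hJ]
        simp
      simp only [ContinuousLinearMap.comp_apply, _root_.add_apply, _root_.sum_apply,
        ContinuousLinearMap.smulRight_apply, _root_.sub_apply, Sm_e hx hJ, co_e hx hJ]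
      rcases lt_trichotomy i m with hi | hi | hi
      · rw [Finset.sum_eq_single i]
        · have : i ≠ m := by omega
          simp [this, hi, (hm i hi).1]
        · intro j _ hji; simp [Ne.symm hji]
        · intro hk'; simp [hi] at hk'
      · subst hi
        rw [Finset.sum_eq_zero]
        · simp [hu]
        · intro j hj
          have : i ≠ j := by rintro rfl; simp at hj
          simp [this]
      · rw [Finset.sum_eq_zero]
        · have h2 : i ≠ m := by omega
          have h3 : ¬ i < m := by omega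
          simp [h2, h3, hc' i hi]
        · intro j hj
          have : i ≠ j := by rintro rfl; simp at hj; omega
          simp [this]
    have h2 := congrArg (fun f => f (T.symm (e ι k))) h1
    have h3 : ∀ j, j < m → co ι j (T.symm (e ι k)) = 0 := by
      intro j hj
      rw [hm' j hj, co_e hx hJ, if_neg (by omega)]
    simp only [ContinuousLinearMap.comp_apply, _root_.add_apply, _root_.sum_apply,
      ContinuousLinearMap.smulRight_apply, _root_.sub_apply, hS', Sm_e hx hJ] at h2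
    rw [Finset.sum_eq_zero (fun j hj => by rw [h3 j (by simpa using hj), zero_smul]),
      Finset.sum_eq_zero (fun j hj => h3 j (by simpa using hj))] at h2
    simp only [sub_zero, one_smul, zero_add] at h2
    rw [← C_e hJ hσ k, ← add_comm (co ι m (T.symm (e ι k)) • u) v, ← h2]
    simp
  -- coordinates of `T e_i`
  have hco0 : ∀ i, m < i → ∀ j, j < m → co ι j (T (e ι i)) = 0 := by
    intro i hi j hj
    rw [(hm j hj).2, co_e hx hJ, if_neg (by omega)]
  -- two different values
  obtain ⟨k1, hk1, k2, hk2, hk12⟩ : ∃ k1, m ≤ k1 ∧ ∃ k2, m ≤ k2 ∧ σ k1 ≠ σ k2 := by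
    by_contra hcon
    push Not at hcon
    have h1 : (C x ι σ - (Sm ι).smulRight (xo x (σ m))) (T h) = 0 := by
      refine ext_m hx hJ m (fun k hk => ?_) (fun j hj => ?_)
      · rw [_root_.sub_apply, ContinuousLinearMap.smulRight_apply, Sm_e hx hJ, one_smul,
          C_e hJ hσ, hcon k hk m le_rfl, sub_self]
      · rw [(hm j hj).2, hh, map_sub, co_e hx hJ, co_e hx hJ, if_neg (by omega),
          if_neg (by omega), sub_zero]
    have hSh : Sm ι h = 0 := by rw [hh, map_sub, Sm_e hx hJ, Sm_e hx hJ, sub_self]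
    rw [_root_.sub_apply, ContinuousLinearMap.smulRight_apply, hS, hSh, zero_smul, sub_zero] at h1
    rw [h1, norm_zero] at hCh
    linarith
  have hfin := step2_comb hx hJ T m hσ hco0 hc' hCz hline hk1 hk2 hk12
  obtain ⟨p, ⟨j0, hj0, hj0p⟩, hp1⟩ := hfin
  have hzero : ∀ j, σ j ≠ p + 1 → ∀ i, m < i → co ι j (T (e ι i)) = 0 := fun j hj i hi =>
    lemM hx hJ hσ hj (hTn i) (hp1 i hi)
  have hκ : ∀ j, m ≤ j → σ j ≠ p + 1 → ∀ z, co ι j (T z) = co ι j (T (e ι m)) * co ι m z := by
    intro j hj hjp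
    have h1 : (co ι j).comp (T.toContinuousLinearEquiv : J →L[ℝ] J) =
        (co ι j (T (e ι m))) • co ι m := by
      refine ext_e hJ.dense fun i => ?_
      simp only [ContinuousLinearMap.comp_apply, _root_.smul_apply, co_e hx hJ, smul_eq_mul]
      rcases lt_trichotomy i m with hi | hi | hi
      · have h2 : i ≠ m := by omega
        have h3 : i ≠ j := by omega
        simp [h2, (hm i hi).1, co_e hx hJ, h3]
      · subst hi; simp
      · have h2 : i ≠ m := by omega
        simp [h2, hzero j hjp i hi]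
    intro z
    exact congrArg (fun f => f z) h1
  have huniq : ∀ j, m ≤ j → σ j ≠ p + 1 → ∀ j', m ≤ j' → σ j' ≠ p + 1 → j = j' := by
    intro j hj hjp j' hj' hjp'
    by_contra hne
    have h1 := hκ j hj hjp (T.symm (e ι j))
    have h2 := hκ j' hj' hjp' (T.symm (e ι j))
    have h3 := hκ j' hj' hjp' (T.symm (e ι j'))
    rw [T.apply_symm_apply, co_e hx hJ, if_pos rfl] at h1 h3
    rw [T.apply_symm_apply, co_e hx hJ, if_neg hne] at h2
    rcases mul_eq_zero.1 h2.symm with h4 | h4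
    · rw [h4, zero_mul] at h3; exact one_ne_zero h3
    · rw [h4, mul_zero] at h1; exact one_ne_zero h1
  have hmp : σ m ≠ p + 1 := by
    intro hmp
    have h1 : σ (j0 + 1) = p + 1 := by
      by_contra h2
      have := huniq j0 hj0 hj0p (j0 + 1) (by omega) h2
      omega
    have h2 := (hσ m p hmp).1
    exact hj0p ((hσ (j0 + 1) p h1).2 j0 (by omega) (by omega))
  have hκm := hκ m le_rfl hmp
  set κ := co ι m (T (e ι m)) with hκdef
  have hk_le : |κ| ≤ 1 := (co_le hx hJ m _).trans (hTn m)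
  have hk_ge : 1 ≤ |κ| := by
    have h1 := hκm (T.symm (e ι m))
    rw [T.apply_symm_apply, co_e hx hJ, if_pos rfl] at h1
    have h2 : |co ι m (T.symm (e ι m))| ≤ 1 := by
      refine (co_le hx hJ m _).trans ?_
      rw [LinearIsometryEquiv.norm_map]; exact norm_e_le hx hJ m
    have h3 : 1 = |κ| * |co ι m (T.symm (e ι m))| := by rw [← abs_mul, ← h1, abs_one]
    nlinarith [abs_nonneg κ]
  have hκ1 : |κ| = 1 := le_antisymm hk_le hk_ge
  have hTe : T (e ι m) = κ • e ι m := by
    rw [← sub_eq_zero]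
    refine eq_zero_of_co hx hJ fun j => ?_
    rw [map_sub, map_smul, co_e hx hJ]
    by_cases hj : j = m
    · subst hj; simp [hκdef]
    · have h1 : co ι j (T (e ι m)) = 0 := by
        refine lemM hx hJ (ch_sing m) (p := m) (j := j) ?_ (hTn m) hκ1
        simp [hj]
      rw [h1, if_neg (Ne.symm hj)]; simp
  have hκone : κ = 1 := by
    have h1 := hS (e ι m)
    rw [hTe, map_smul, Sm_e hx hJ, smul_eq_mul, mul_one] at h1
    exact h1
  rw [hκone, one_smul] at hTe
  refine ⟨hTe, fun z => ?_⟩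
  rw [hκm z, hκone, one_mul]

/-- trivial isometry group -/
theorem trivial_iso (hx : Good x) (hJ : IsJ x ι) (T : J ≃ₗᵢ[ℝ] J) :
    T = LinearIsometryEquiv.refl ℝ J ∨ T = LinearIsometryEquiv.neg ℝ := by
  have key : ∀ T : J ≃ₗᵢ[ℝ] J, (∀ z, Sm ι (T z) = Sm ι z) → T = LinearIsometryEquiv.refl ℝ J := by
    intro T hS
    have h1 : ∀ m, ∀ j, j < m → T (e ι j) = e ι j ∧ ∀ z, co ι j (T z) = co ι j z := by
      intro m
      induction m with
      | zero => intro j hj; omega
      | succ m ih =>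
        intro j hj
        rcases Nat.lt_succ_iff_lt_or_eq.1 hj with h | h
        · exact ih j h
        · subst h; exact step2 hx hJ T hS j ih
    have h2 : (T.toContinuousLinearEquiv : J →L[ℝ] J) = ContinuousLinearMap.id ℝ J := by
      refine ext_e hJ.dense fun k => ?_
      simpa using (h1 (k + 1) k (by omega)).1
    ext z
    exact congrArg (fun f => f z) h2
  rcases step1 hx hJ T with h | h
  · left; exact key T h
  · right
    have h3 := key (T.trans (LinearIsometryEquiv.neg ℝ)) (by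
      intro z
      rw [LinearIsometryEquiv.trans_apply, LinearIsometryEquiv.coe_neg, map_neg, h, neg_neg])
    ext z
    have h4 := congrArg (fun f => f z) h3
    simp only [LinearIsometryEquiv.trans_apply, LinearIsometryEquiv.coe_neg,
      LinearIsometryEquiv.coe_refl, id_eq] at h4
    rw [LinearIsometryEquiv.coe_neg]
    exact neg_eq_iff_eq_neg.1 h4

end

end Pool.Agent.Jam
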