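import Mathlib

namespace Pool.Agent.Jam

open scoped InnerProductSpace

/-- reflexive Banach spaces -/
def IsReflexive (X : Type*) [NormedAddCommGroup X] [NormedSpace ℝ X] : Prop :=
  Function.Surjective (NormedSpace.inclusionInDoubleDual ℝ X)

/-- a space linearly homeomorphic to a Hilbert space is reflexive -/
lemma isReflexive_of_equiv {X H : Type*} [NormedAddCommGroup X] [NormedSpace ℝ X]
    [NormedAddCommGroup H] [InnerProductSpace ℝ H] [CompleteSpace H] (e : X ≃L[ℝ] H) :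
    IsReflexive X := by
  intro Φ
  -- the functional `y ↦ Φ (⟪y, e ·⟫)` on `H`
  let A : H →L[ℝ] StrongDual ℝ X :=
    ((ContinuousLinearMap.compL ℝ X H ℝ).flip (e : X →L[ℝ] H)).comp (innerSL ℝ)
  let Ψ : StrongDual ℝ H := Φ.comp A
  refine ⟨e.symm ((InnerProductSpace.toDual ℝ H).symm Ψ), ?_⟩
  ext g
  rw [NormedSpace.dual_def]
  -- represent `g ∘ e.symm`
  set y := (InnerProductSpace.toDual ℝ H).symm (g.comp (e.symm : H →L[ℝ] X)) with hy
  have h1 : ∀ u : H, ⟪y, u⟫_ℝ = g (e.symm u) := by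
    intro u
    rw [hy, InnerProductSpace.toDual_symm_apply]; rfl
  have h2 : A y = g := by
    ext v
    change ⟪y, e v⟫_ℝ = g v
    rw [h1, e.symm_apply_apply]
  have h3 : ⟪(InnerProductSpace.toDual ℝ H).symm Ψ, y⟫_ℝ = Ψ y := by
    rw [InnerProductSpace.toDual_symm_apply]
  rw [← h1, real_inner_comm, h3]
  change Φ (A y) = Φ g
  rw [h2]

end Pool.Agent.Jam
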