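import Pool.Agent.Work.MP_8db9c5_an.H71.Hilb
import Pool.Agent.Work.MP_8db9c5_an.H71.Refl

namespace Pool.Agent.Jam

open Finset Filter Topology
open scoped InnerProductSpace ENNReal

/-- `ℓ_p² ⊕₂ ℓ²` -/
abbrev XP (p : ℝ≥0∞) [Fact (1 ≤ p)] : Type := WithLp 2 (WithLp p (ℝ × ℝ) × H2)

variable (p : ℝ≥0∞) [Fact (1 ≤ p)]

/-- vectors of `XP p` -/
noncomputable def vec (α β : ℝ) (z : H2) : XP p := WithLp.toLp 2 (WithLp.toLp p (α, β), z)

lemma vec_add (α β γ δ : ℝ) (z w : H2) :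
    vec p α β z + vec p γ δ w = vec p (α + γ) (β + δ) (z + w) := rfl

lemma vec_smul (c α β : ℝ) (z : H2) : c • vec p α β z = vec p (c * α) (c * β) (c • z) := rfl

lemma vec_surj (v : XP p) : ∃ α β z, v = vec p α β z := ⟨v.fst.fst, v.fst.snd, v.snd, rfl⟩

lemma vec_sq (α β : ℝ) (z : H2) :
    ‖vec p α β z‖ ^ 2 = ‖(WithLp.toLp p (α, β) : WithLp p (ℝ × ℝ))‖ ^ 2 + ‖z‖ ^ 2 :=
  WithLp.prod_norm_sq_eq_of_L2 _

/-- the natural basis -/
noncomputable def xp (i : ℕ) : XP p :=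
  if i = 0 then vec p 1 0 0 else if i = 1 then vec p 0 1 0 else vec p 0 0 (hb (i - 2))

lemma xp_zero : xp p 0 = vec p 1 0 0 := by simp [xp]
lemma xp_one : xp p 1 = vec p 0 1 0 := by simp [xp]
lemma xp_add_two (i : ℕ) : xp p (i + 2) = vec p 0 0 (hb i) := by
  have h1 : i + 2 ≠ 0 := by omega
  have h2 : i + 2 ≠ 1 := by omega
  simp [xp, h2]

/-- `H2 → XP p` -/
noncomputable def inr : H2 →L[ℝ] XP p :=
  ((WithLp.prodContinuousLinearEquiv 2 ℝ (WithLp p (ℝ × ℝ)) H2).symm :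
    (WithLp p (ℝ × ℝ) × H2) →L[ℝ] XP p).comp (ContinuousLinearMap.inr ℝ _ _)

lemma inr_apply (z : H2) : inr p z = vec p 0 0 z := rfl

noncomputable def c0 : XP p →L[ℝ] ℝ := (WithLp.fstL p ℝ ℝ ℝ).comp (WithLp.fstL 2 ℝ _ _)
noncomputable def c1 : XP p →L[ℝ] ℝ := (WithLp.sndL p ℝ ℝ ℝ).comp (WithLp.fstL 2 ℝ _ _)
noncomputable def cz : XP p →L[ℝ] H2 := WithLp.sndL 2 ℝ _ _

lemma c0_vec (α β : ℝ) (z : H2) : c0 p (vec p α β z) = α := rfl
lemma c1_vec (α β : ℝ) (z : H2) : c1 p (vec p α β z) = β := rfl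
lemma cz_vec (α β : ℝ) (z : H2) : cz p (vec p α β z) = z := rfl

/-- the natural basis is an unconditional Schauder basis -/
noncomputable def bp : UnconditionalSchauderBasis ℕ ℝ (XP p) where
  basis := xp p
  coord i := if i = 0 then c0 p else if i = 1 then c1 p else (innerSL ℝ (hb (i - 2))).comp (cz p)
  ortho i j := by
    simp only [Pi.single_apply]
    rcases i with _ | _ | i <;> rcases j with _ | _ | j
    · simp [xp_zero, c0_vec]
    · simp [xp_one, c0_vec]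
    · rw [xp_add_two]; simp [c0_vec]
    · simp [xp_zero, c1_vec]
    · simp [xp_one, c1_vec]
    · rw [xp_add_two]; simp [c1_vec]
    · simp [xp_zero, cz_vec]
    · simp [xp_one, cz_vec]
    · rw [xp_add_two]
      have h1 : i + 1 + 1 ≠ 1 := by omega
      simp [cz_vec, hb_inner]
  expansion v := by
    obtain ⟨α, β, z, rfl⟩ := vec_surj p v
    rw [← hasSum_nat_add_iff' 2]
    have h1 := hb.hasSum_repr z
    simp only [hb.repr_apply_apply] at h1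
    have h2 := (inr p).hasSum h1
    rw [inr_apply] at h2
    have e1 : vec p α β z - ∑ i ∈ range 2, ((if i = 0 then c0 p else if i = 1 then c1 p else
        (innerSL ℝ (hb (i - 2))).comp (cz p)) (vec p α β z)) • xp p i = vec p 0 0 z := by
      rw [Finset.sum_range_succ, Finset.sum_range_one, xp_zero, xp_one]
      simp only [if_pos, one_ne_zero, if_false, c0_vec, c1_vec, vec_smul, vec_add]
      rw [sub_eq_iff_eq_add, vec_add]
      simp
    rw [e1]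
    refine h2.congr_fun ?_
    intro n
    rw [xp_add_two]
    have h5 : n + 2 ≠ 1 := by omega
    simp [cz_vec, inr_apply]

lemma hb_ne_two (i : ℕ) : ‖hb i‖ = 1 := hb_norm i

lemma nrm_toLp_fst (α : ℝ) : ‖(WithLp.toLp p (α, (0 : ℝ)) : WithLp p (ℝ × ℝ))‖ = |α| := by
  rw [WithLp.norm_toLp_fst]; rfl

lemma nrm_toLp_snd (α : ℝ) : ‖(WithLp.toLp p ((0 : ℝ), α) : WithLp p (ℝ × ℝ))‖ = |α| := by
  rw [WithLp.norm_toLp_snd]; rfl

lemma xp_norm (i : ℕ) : ‖xp p i‖ = 1 := by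
  have h1 : ‖xp p i‖ ^ 2 = 1 := by
    rcases i with _ | _ | i
    · rw [xp_zero, vec_sq, nrm_toLp_fst]; simp
    · rw [xp_one, vec_sq, nrm_toLp_snd]; simp
    · rw [xp_add_two, vec_sq, nrm_toLp_fst, hb_norm]; simp
  have h2 := norm_nonneg (xp p i)
  nlinarith

lemma W_xp {v : XP p} (hv : v ∈ W (xp p)) : ∃ z, v = vec p 0 0 z := by
  refine Submodule.span_induction (p := fun v _ => ∃ z, v = vec p 0 0 z) ?_ ?_ ?_ ?_ hv
  · rintro v ⟨i, hi, rfl⟩
    obtain ⟨j, rfl⟩ : ∃ j, i = j + 2 := ⟨i - 2, by omega⟩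
    exact ⟨hb j, xp_add_two p j⟩
  · exact ⟨0, rfl⟩
  · rintro _ _ _ _ ⟨z, rfl⟩ ⟨w, rfl⟩
    exact ⟨z + w, by rw [vec_add]; simp⟩
  · rintro c _ _ ⟨z, rfl⟩
    exact ⟨c • z, by rw [vec_smul]; simp⟩

/-- norm comparison -/
lemma vec_le {α β γ δ : ℝ} {z : H2}
    (h : ‖(WithLp.toLp p (α, β) : WithLp p (ℝ × ℝ))‖ ≤ ‖(WithLp.toLp p (γ, δ) : WithLp p (ℝ × ℝ))‖) :
    ‖vec p α β z‖ ≤ ‖vec p γ δ z‖ := by
  refine le_of_sq (norm_nonneg _) ?_
  rw [vec_sq, vec_sq]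
  have := norm_nonneg (WithLp.toLp p (α, β) : WithLp p (ℝ × ℝ))
  nlinarith

lemma comb01 (α β : ℝ) (z : H2) : α • xp p 0 + β • xp p 1 + vec p 0 0 z = vec p α β z := by
  rw [xp_zero, xp_one, vec_smul, vec_smul, vec_add, vec_add]; simp
lemma comb0 (α : ℝ) (z : H2) : α • xp p 0 + vec p 0 0 z = vec p α 0 z := by
  rw [xp_zero, vec_smul, vec_add]; simp
lemma comb1 (α : ℝ) (z : H2) : α • xp p 1 + vec p 0 0 z = vec p 0 α z := by
  rw [xp_one, vec_smul, vec_add]; simp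

/-- `p = 1`: `a₀ ↦ -a₀` -/
lemma cond_one : Cond (xp 1) 0 := by
  have hn : ∀ α β : ℝ, ‖(WithLp.toLp 1 (α, β) : WithLp 1 (ℝ × ℝ))‖ = |α| + |β| := by
    intro α β
    rw [WithLp.prod_norm_eq_of_L1]; rfl
  refine ⟨fun α v hv => ?_, fun α β v hv M h1 h2 h3 h4 => ?_⟩
  · obtain ⟨z, rfl⟩ := W_xp 1 hv
    rw [comb0, comb0]
    refine vec_le 1 ?_
    rw [hn, hn, abs_neg]
  · obtain ⟨z, rfl⟩ := W_xp 1 hv
    rw [comb01] at h2
    rw [zero_mul, add_zero]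
    refine ⟨h1, ?_, ?_⟩
    · rw [comb01]
      refine (vec_le 1 ?_).trans h2
      rw [hn, hn, abs_neg]
    · rw [comb0]
      refine (vec_le 1 ?_).trans h2
      rw [hn, hn, abs_zero, add_zero]
      exact (abs_add_le _ _).trans (by rw [abs_neg])

/-- `p = ∞`: exchange of the first two partial sums -/
lemma cond_top : Cond (xp ⊤) 1 := by
  have hn : ∀ α β : ℝ, ‖(WithLp.toLp ⊤ (α, β) : WithLp ⊤ (ℝ × ℝ))‖ = max |α| |β| := by
    intro α β
    rw [WithLp.prod_norm_eq_sup]; rfl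
  refine ⟨fun α v hv => ?_, fun α β v hv M h1 h2 h3 h4 => ?_⟩
  · obtain ⟨z, rfl⟩ := W_xp ⊤ hv
    rw [comb0, comb0]
    refine vec_le ⊤ ?_
    rw [hn, hn, abs_neg]
  · obtain ⟨z, rfl⟩ := W_xp ⊤ hv
    rw [comb01] at h2
    rw [comb0] at h3 h4
    rw [comb1] at h1
    rw [one_mul, comb1, comb01, comb0]
    refine ⟨?_, ?_, ?_⟩
    · refine (vec_le ⊤ ?_).trans h3
      rw [hn, hn, abs_zero, add_comm α β]; simp
    · rcases le_total |(-α)| |β + α| with h | h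
      · refine (vec_le ⊤ ?_).trans h3
        rw [hn, hn, max_eq_right h, add_comm α β]; simp
      · refine (vec_le ⊤ ?_).trans h4
        rw [hn, hn, max_eq_left h]; simp
    · refine (vec_le ⊤ ?_).trans h1
      rw [hn, hn]; simp

/-- the norm of `ℓ_p²` depends only on the absolute values -/
lemma nrm_abs {α β γ δ : ℝ} (h1 : |α| = |γ|) (h2 : |β| = |δ|) :
    ‖(WithLp.toLp p (α, β) : WithLp p (ℝ × ℝ))‖ = ‖(WithLp.toLp p (γ, δ) : WithLp p (ℝ × ℝ))‖ := by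
  by_cases hp : p = ⊤
  · subst hp
    rw [WithLp.prod_norm_eq_sup, WithLp.prod_norm_eq_sup]
    simp only [WithLp.toLp_fst, WithLp.toLp_snd, Real.norm_eq_abs, h1, h2]
  · have hp1 : 1 ≤ p := Fact.out
    have hp0 : 0 < p.toReal := ENNReal.toReal_pos (by positivity) hp
    rw [WithLp.prod_norm_eq_add hp0, WithLp.prod_norm_eq_add hp0]
    simp only [WithLp.toLp_fst, WithLp.toLp_snd, Real.norm_eq_abs, h1, h2]

lemma vec_self (v : XP p) : v = vec p (c0 p v) (c1 p v) (cz p v) := rfl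

lemma cz_xp_inner {i j : ℕ} (h : i ≠ j) : ⟪cz p (xp p i), cz p (xp p j)⟫_ℝ = 0 := by
  rcases i with _ | _ | i <;> rcases j with _ | _ | j
  · simp [xp_zero, cz_vec]
  · simp [xp_zero, cz_vec]
  · simp [xp_zero, cz_vec]
  · simp [xp_one, cz_vec]
  · simp [xp_one, cz_vec]
  · simp [xp_one, cz_vec]
  · simp [xp_zero, cz_vec]
  · simp [xp_one, cz_vec]
  · rw [xp_add_two, xp_add_two, cz_vec, cz_vec, hb_inner, if_neg (by omega)]

lemma cz_sum_sq (s : Finset ℕ) (c : ℕ → ℝ) :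
    ‖cz p (∑ i ∈ s, c i • xp p i)‖ ^ 2 = ∑ i ∈ s, c i ^ 2 * ‖cz p (xp p i)‖ ^ 2 := by
  induction s using Finset.induction_on with
  | empty => simp
  | insert a s ha ih =>
    rw [Finset.sum_insert ha, Finset.sum_insert ha, map_add, ← ih]
    have h0 : ⟪cz p (c a • xp p a), cz p (∑ i ∈ s, c i • xp p i)⟫_ℝ = 0 := by
      rw [map_sum, inner_sum]
      refine Finset.sum_eq_zero fun i hi => ?_
      rw [map_smul, map_smul, inner_smul_left, inner_smul_right, cz_xp_inner p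
        (by rintro rfl; exact ha hi)]
      simp
    have h1 := norm_add_sq_real (cz p (c a • xp p a)) (cz p (∑ i ∈ s, c i • xp p i))
    rw [h0] at h1
    rw [h1, map_smul, norm_smul, mul_pow, Real.norm_eq_abs, sq_abs]; ring

lemma c0_sum (s : Finset ℕ) (c : ℕ → ℝ) :
    c0 p (∑ i ∈ s, c i • xp p i) = if 0 ∈ s then c 0 else 0 := by
  rw [map_sum, ← Finset.sum_ite_eq' s 0 c]
  refine Finset.sum_congr rfl fun i _ => ?_
  rcases i with _ | _ | i
  · simp [xp_zero, c0_vec]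
  · simp [xp_one, c0_vec]
  · rw [map_smul, xp_add_two]; simp [c0_vec]

lemma c1_sum (s : Finset ℕ) (c : ℕ → ℝ) :
    c1 p (∑ i ∈ s, c i • xp p i) = if 1 ∈ s then c 1 else 0 := by
  rw [map_sum, ← Finset.sum_ite_eq' s 1 c]
  refine Finset.sum_congr rfl fun i _ => ?_
  rcases i with _ | _ | i
  · simp [xp_zero, c1_vec]
  · simp [xp_one, c1_vec]
  · rw [map_smul, xp_add_two]; simp [c1_vec]

/-- sign changes -/
lemma one_unconditional (s : Finset ℕ) (c ε : ℕ → ℝ) (hε : ∀ i, |ε i| = 1) :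
    ‖∑ i ∈ s, (ε i * c i) • xp p i‖ = ‖∑ i ∈ s, c i • xp p i‖ := by
  have h : ‖∑ i ∈ s, (ε i * c i) • xp p i‖ ^ 2 = ‖∑ i ∈ s, c i • xp p i‖ ^ 2 := by
    rw [vec_self p (∑ i ∈ s, (ε i * c i) • xp p i), vec_self p (∑ i ∈ s, c i • xp p i), vec_sq,
      vec_sq, cz_sum_sq p s c, cz_sum_sq p s (fun i => ε i * c i), c0_sum p s c, c1_sum p s c,
      c0_sum p s (fun i => ε i * c i), c1_sum p s (fun i => ε i * c i)]
    congr 1
    · rw [nrm_abs p (γ := if 0 ∈ s then c 0 else 0) (δ := if 1 ∈ s then c 1 else 0)]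
      · by_cases h0 : 0 ∈ s
        · simp [h0, abs_mul, hε]
        · simp [h0]
      · by_cases h0 : 1 ∈ s
        · simp [h0, abs_mul, hε]
        · simp [h0]
    · refine Finset.sum_congr rfl fun i _ => ?_
      have h2 : ε i ^ 2 = 1 := by rw [← sq_abs, hε]; norm_num
      rw [mul_pow, h2, one_mul]
  refine le_antisymm (le_of_sq (norm_nonneg _) h.le) (le_of_sq (norm_nonneg _) h.ge)

lemma xp_reflexive : IsReflexive (XP p) := by
  let e1 : WithLp p (ℝ × ℝ) ≃L[ℝ] (ℝ × ℝ) := WithLp.prodContinuousLinearEquiv p ℝ ℝ ℝ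
  let e2 : (ℝ × ℝ) ≃L[ℝ] WithLp 2 (ℝ × ℝ) := (WithLp.prodContinuousLinearEquiv 2 ℝ ℝ ℝ).symm
  let e : XP p ≃L[ℝ] WithLp 2 (WithLp 2 (ℝ × ℝ) × H2) :=
    (WithLp.prodContinuousLinearEquiv 2 ℝ (WithLp p (ℝ × ℝ)) H2).trans
      (((e1.trans e2).prodCongr (ContinuousLinearEquiv.refl ℝ H2)).trans
        (WithLp.prodContinuousLinearEquiv 2 ℝ (WithLp 2 (ℝ × ℝ)) H2).symm)
  exact isReflexive_of_equiv e

end Pool.Agent.Jam
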