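import Pool.Agent.Work.MP_8db9c5_an.H71.Basic

namespace Pool.Agent.Jam

open Finset Filter Topology

/-- hypotheses on the basis -/
structure Good {X : Type*} [NormedAddCommGroup X] [NormedSpace ℝ X] (x : ℕ → X) : Prop where
  lin : LinearIndependent ℝ x
  norm_one : ∀ i, ‖x i‖ = 1
  bj : ∀ i j, i ≠ j → ∀ t : ℝ, 1 ≤ ‖x i + t • x j‖

variable {X : Type*} [NormedAddCommGroup X] [NormedSpace ℝ X]

section pure

/-- strict version of Birkhoff-James orthogonality -/
lemma Good.eq_zero [StrictConvexSpace ℝ X] {x : ℕ → X} (h : Good x) {i j : ℕ} (hij : i ≠ j)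
    {s t : ℝ} (hs : |s| = 1) (hle : ‖s • x i + t • x j‖ ≤ 1) : t = 0 := by
  by_contra ht
  -- reduce to s = 1
  have hs0 : s ≠ 0 := by intro h0; rw [h0] at hs; simp at hs
  have hss : s * s = 1 := by
    have := abs_mul_abs_self s; rw [hs] at this; linarith
  set t' := s * t with ht'
  have ht'0 : t' ≠ 0 := mul_ne_zero hs0 ht
  have h1 : ‖x i + t' • x j‖ ≤ 1 := by
    have : x i + t' • x j = s • (s • x i + t • x j) := by
      rw [smul_add, smul_smul, smul_smul, hss, one_smul]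
    rw [this, norm_smul, Real.norm_eq_abs, hs, one_mul]; exact hle
  have h2 : 1 ≤ ‖x i + t' • x j‖ := h.bj i j hij t'
  have h3 : 1 ≤ ‖x i + (t' / 2) • x j‖ := h.bj i j hij (t' / 2)
  have hne : x i ≠ x i + t' • x j := by
    intro h0
    have : t' • x j = 0 := by simpa using h0.symm
    rcases smul_eq_zero.1 this with h | h'
    · exact ht'0 h
    · have := h.norm_one j; rw [h', norm_zero] at this; exact zero_ne_one this
  have h4 := norm_combo_lt_of_ne (x := x i) (y := x i + t' • x j) (r := 1) (a := 1 / 2) (b := 1 / 2)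
    (h.norm_one i).le h1 hne (by norm_num) (by norm_num) (by norm_num)
  have h5 : (1 / 2 : ℝ) • x i + (1 / 2 : ℝ) • (x i + t' • x j) = x i + (t' / 2) • x j := by
    rw [smul_add, smul_smul, ← add_assoc, ← add_smul]
    congr 1
    · norm_num
    · congr 1; ring
  rw [h5] at h4
  linarith

/-- a convex series of vectors of the unit ball whose sum has norm one is constant -/
lemma hasSum_const [StrictConvexSpace ℝ X] {u : ℕ → X} {v : X} (hu : ∀ k, ‖u k‖ ≤ 1)
    (hs : HasSum (fun k => ((1 / 2 : ℝ) ^ (k + 1)) • u k) v) (hv : ‖v‖ = 1) : ∀ k, u k = v := by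
  obtain ⟨c, hc1, hc2⟩ := exists_dual_vector ℝ v (by intro h; rw [h] at hv; simp at hv)
  have hcv : c v = 1 := by rw [hc2, hv]; simp
  have hcu : ∀ k, c (u k) ≤ 1 := fun k =>
    (le_abs_self _).trans ((c.le_opNorm (u k)).trans (by rw [hc1, one_mul]; exact hu k))
  have hg : HasSum (fun k : ℕ => (1 / 2 : ℝ) ^ (k + 1)) 1 := by
    have := (hasSum_geometric_two).mul_left (1 / 2 : ℝ)
    simp only [pow_succ]
    convert! this using 1
    · ext k; ring
    · norm_num
  have hcs : HasSum (fun k => ((1 / 2 : ℝ) ^ (k + 1)) * c (u k)) 1 := by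
    have := c.hasSum hs
    rw [hcv] at this
    convert! this using 1
    ext k; simp
  have hd : HasSum (fun k => ((1 / 2 : ℝ) ^ (k + 1)) * (1 - c (u k))) 0 := by
    have := hg.sub hcs
    simp only [sub_self] at this
    convert! this using 1
    ext k; ring
  have hz := (hasSum_zero_iff_of_nonneg (fun k => mul_nonneg (by positivity)
    (by linarith [hcu k]))).1 hd
  intro k
  have hk := congrFun hz k
  have hk1 : c (u k) = 1 := by
    simp only [Pi.zero_apply, mul_eq_zero] at hk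
    rcases hk with h | h
    · exact absurd h (by positivity)
    · linarith
  have hnu : ‖u k‖ = 1 := by
    refine le_antisymm (hu k) ?_
    have : |c (u k)| ≤ ‖c‖ * ‖u k‖ := c.le_opNorm (u k)
    rw [hk1, hc1] at this; simpa using this
  have hsum : 2 ≤ ‖u k + v‖ := by
    have : |c (u k + v)| ≤ ‖c‖ * ‖u k + v‖ := c.le_opNorm _
    rw [map_add, hk1, hcv, hc1, one_mul] at this
    norm_num at this; linarith
  by_contra hne
  have h4 := norm_combo_lt_of_ne (x := u k) (y := v) (r := 1) (a := 1 / 2) (b := 1 / 2)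
    hnu.le hv.le hne (by norm_num) (by norm_num) (by norm_num)
  rw [← smul_add, norm_smul] at h4
  norm_num at h4
  linarith

end pure

/-! ### level functionals -/

variable {J : Type*} [NormedAddCommGroup J] [NormedSpace ℝ J]

def slev (σ : ℕ → ℕ) (p : ℕ) : ℕ → ℕ := fun k => if σ k = p + 1 then p + 1 else 0

def slevj (σ : ℕ → ℕ) (p j : ℕ) : ℕ → ℕ :=
  fun k => if k = j then j + 1 else if σ k = p + 1 then p + 1 else 0

lemma ch_slev {σ : ℕ → ℕ} (h : Ch σ) (p : ℕ) : Ch (slev σ p) := by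
  intro k q hk
  unfold slev at hk
  split_ifs at hk with h1
  obtain rfl : q = p := by omega
  refine ⟨(h k q h1).1, fun j h2 h3 => ?_⟩
  simp [slev, (h k q h1).2 j h2 h3]

lemma ch_slevj {σ : ℕ → ℕ} (h : Ch σ) {p j : ℕ} (hj : σ j ≠ p + 1) : Ch (slevj σ p j) := by
  intro k q hk
  unfold slevj at hk
  split_ifs at hk with h1 h2
  · obtain rfl : q = j := by omega
    subst h1
    refine ⟨le_rfl, fun i h2 h3 => ?_⟩
    obtain rfl : i = k := by omega
    simp [slevj]
  · obtain rfl : q = p := by omega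
    refine ⟨(h k q h2).1, fun i h3 h4 => ?_⟩
    have h5 := (h k q h2).2 i h3 h4
    have h6 : i ≠ j := by rintro rfl; exact hj h5
    simp [slevj, h5, h6]

lemma ch_one : Ch (fun _ => 1) := by
  intro k p h
  have h' : 1 = p + 1 := h
  obtain rfl : p = 0 := by omega
  exact ⟨Nat.zero_le _, fun _ _ _ => rfl⟩

lemma ch_sing (j : ℕ) : Ch (fun k => if k = j then j + 1 else 0) := by
  intro k p hk
  simp only at hk
  split_ifs at hk with h1
  obtain rfl : p = j := by omega
  subst h1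
  refine ⟨le_rfl, fun i h2 h3 => ?_⟩
  obtain rfl : i = k := by omega
  simp

/-- weights of the level `p` of `σ` -/
noncomputable def lev (σ : ℕ → ℕ) (p : ℕ) : ℕ → ℝ := fun k => if σ k = p + 1 then 1 else 0

noncomputable def fl (ι : (ℕ →₀ ℝ) →ₗ[ℝ] J) (σ : ℕ → ℕ) (p : ℕ) : J →L[ℝ] ℝ :=
  (Finsupp.linearCombination ℝ (lev σ p)).extendOfNorm ι

noncomputable def Sm (ι : (ℕ →₀ ℝ) →ₗ[ℝ] J) : J →L[ℝ] ℝ := fl ι (fun _ => 1) 0

noncomputable def co (ι : (ℕ →₀ ℝ) →ₗ[ℝ] J) (j : ℕ) : J →L[ℝ] ℝ :=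
  fl ι (fun k => if k = j then j + 1 else 0) j

variable {x : ℕ → X} {ι : (ℕ →₀ ℝ) →ₗ[ℝ] J}

lemma L_slev (x : ℕ → X) (σ : ℕ → ℕ) (p : ℕ) (a : ℕ →₀ ℝ) :
    L x (slev σ p) a = (Finsupp.linearCombination ℝ (lev σ p) a) • x p := by
  rw [L, Finsupp.linearCombination_apply, Finsupp.linearCombination_apply, Finsupp.sum,
    Finsupp.sum, Finset.sum_smul]
  refine Finset.sum_congr rfl fun k _ => ?_
  by_cases h : σ k = p + 1
  · simp [slev, lev, h, xo]
  · simp [slev, lev, h, xo]

lemma lc_le (hx : Good x) (hJ : IsJ x ι) {σ : ℕ → ℕ} (hσ : Ch σ) (p : ℕ) (a : ℕ →₀ ℝ) :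
    ‖Finsupp.linearCombination ℝ (lev σ p) a‖ ≤ 1 * ‖ι a‖ := by
  have h1 := le_jn x (ch_slev hσ p) a
  rw [L_slev, norm_smul, hx.norm_one, mul_one] at h1
  rw [one_mul, hJ.norm_eq]; exact h1

lemma fl_e (hx : Good x) (hJ : IsJ x ι) {σ : ℕ → ℕ} (hσ : Ch σ) (p k : ℕ) :
    fl ι σ p (e ι k) = if σ k = p + 1 then 1 else 0 := by
  rw [fl, e, LinearMap.extendOfNorm_eq hJ.dense ⟨1, lc_le hx hJ hσ p⟩]
  simp [lev]

lemma fl_le (hx : Good x) (hJ : IsJ x ι) {σ : ℕ → ℕ} (hσ : Ch σ) (p : ℕ) (z : J) :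
    |fl ι σ p z| ≤ ‖z‖ := by
  have := LinearMap.norm_extendOfNorm_apply_le (f := Finsupp.linearCombination ℝ (lev σ p))
    (e := ι) hJ.dense 1 (lc_le hx hJ hσ p) z
  rw [one_mul] at this; exact this

lemma Sm_e (hx : Good x) (hJ : IsJ x ι) (k : ℕ) : Sm ι (e ι k) = 1 := by
  rw [Sm, fl_e hx hJ ch_one]; simp

lemma co_e (hx : Good x) (hJ : IsJ x ι) (j k : ℕ) : co ι j (e ι k) = if k = j then 1 else 0 := by
  rw [co, fl_e hx hJ (ch_sing j)]
  by_cases h : k = j
  · simp [h]
  · simp [h]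

lemma Sm_le (hx : Good x) (hJ : IsJ x ι) (z : J) : |Sm ι z| ≤ ‖z‖ := fl_le hx hJ ch_one 0 z

lemma co_le (hx : Good x) (hJ : IsJ x ι) (j : ℕ) (z : J) : |co ι j z| ≤ ‖z‖ :=
  fl_le hx hJ (ch_sing j) j z

lemma norm_e_le (hx : Good x) (hJ : IsJ x ι) (k : ℕ) : ‖e ι k‖ ≤ 1 := by
  rw [e, hJ.norm_eq]
  refine jn_le x fun σ hσ => ?_
  rw [L_single, one_smul]
  rcases σ k with _ | p
  · simp [xo]
  · simp [xo, hx.norm_one]

section complete
variable [CompleteSpace X]

lemma C_slev (hx : Good x) (hJ : IsJ x ι) {σ : ℕ → ℕ} (hσ : Ch σ) (p : ℕ) (z : J) :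
    C x ι (slev σ p) z = fl ι σ p z • x p := by
  have : C x ι (slev σ p) = (fl ι σ p).smulRight (x p) := by
    refine ext_e hJ.dense fun k => ?_
    rw [C_e hJ (ch_slev hσ p), ContinuousLinearMap.smulRight_apply, fl_e hx hJ hσ]
    by_cases h : σ k = p + 1
    · simp [slev, h, xo]
    · simp [slev, h, xo]
  rw [this]; rfl

lemma C_slevj (hx : Good x) (hJ : IsJ x ι) {σ : ℕ → ℕ} (hσ : Ch σ) {p j : ℕ} (hj : σ j ≠ p + 1)
    (z : J) : C x ι (slevj σ p j) z = fl ι σ p z • x p + co ι j z • x j := by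
  have : C x ι (slevj σ p j) = (fl ι σ p).smulRight (x p) + (co ι j).smulRight (x j) := by
    refine ext_e hJ.dense fun k => ?_
    rw [C_e hJ (ch_slevj hσ hj), _root_.add_apply,
      ContinuousLinearMap.smulRight_apply, ContinuousLinearMap.smulRight_apply, fl_e hx hJ hσ,
      co_e hx hJ]
    by_cases h1 : k = j
    · subst h1; simp [slevj, hj, xo]
    · by_cases h : σ k = p + 1
      · simp [slevj, h, h1, xo]
      · simp [slevj, h, h1, xo]
  rw [this]; rfl

/-- Lemma M -/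
lemma lemM [StrictConvexSpace ℝ X] (hx : Good x) (hJ : IsJ x ι) {σ : ℕ → ℕ} (hσ : Ch σ) {p j : ℕ}
    (hj : σ j ≠ p + 1) {z : J} (hz : ‖z‖ ≤ 1) (h1 : |fl ι σ p z| = 1) : co ι j z = 0 := by
  by_cases hpj : p = j
  · -- then no index is in level p
    subst hpj
    exfalso
    have : fl ι σ p = 0 := by
      refine ext_e hJ.dense fun k => ?_
      rw [fl_e hx hJ hσ]
      have : σ k ≠ p + 1 := fun h => hj ((hσ k p h).2 p le_rfl (hσ k p h).1)
      simp [this]
    rw [this] at h1; simp at h1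
  have h2 := C_le hJ (ch_slevj hσ hj) z
  rw [C_slevj hx hJ hσ hj] at h2
  exact hx.eq_zero hpj h1 (h2.trans hz)

/-- the coordinates separate points -/
lemma eq_zero_of_co (hx : Good x) (hJ : IsJ x ι) {z : J} (h : ∀ j, co ι j z = 0) : z = 0 := by
  obtain ⟨σ, hσ, hn⟩ := exists_norming hJ z
  let s : ℕ → ℕ → ℕ := fun n k => if k < n then σ k else 0
  have hs : ∀ n, Ch (s n) := by
    intro n k p hk
    simp only [s] at hk
    split_ifs at hk with h1
    refine ⟨(hσ k p hk).1, fun j h2 h3 => ?_⟩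
    have : j < n := by omega
    simp [s, this, (hσ k p hk).2 j h2 h3]
  have hlim : Tendsto s atTop (𝓝 σ) := by
    rw [tendsto_pi_nhds]
    intro k
    refine tendsto_const_nhds.congr' ?_
    filter_upwards [eventually_gt_atTop k] with n hn
    simp [s, hn]
  have h1 := C_tendsto hJ hs hσ hlim z
  have h2 : ∀ n, C x ι (s n) z = 0 := by
    intro n
    have : C x ι (s n) = ∑ j ∈ range n, (co ι j).smulRight (xo x (σ j)) := by
      refine ext_e hJ.dense fun k => ?_
      rw [C_e hJ (hs n), _root_.sum_apply]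
      simp only [ContinuousLinearMap.smulRight_apply, co_e hx hJ]
      by_cases hk : k < n
      · rw [Finset.sum_eq_single k]
        · simp [s, hk]
        · intro j _ hjk; simp [Ne.symm hjk]
        · intro hk'; simp [hk] at hk'
      · rw [Finset.sum_eq_zero]
        · simp [s, hk, xo]
        · intro j hj
          have : k ≠ j := by rintro rfl; simp at hj; exact hk hj
          simp [this]
    rw [this, _root_.sum_apply]
    simp [h]
  have h3 : C x ι σ z = 0 := by
    refine tendsto_nhds_unique h1 ?_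
    simp [h2]
  rw [h3, norm_zero] at hn
  exact norm_eq_zero.1 hn.symm

end complete

end Pool.Agent.Jam
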