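import Pool.Agent.Work.MP_8db9c5_an.Bd.B02
import Pool.Agent.Work.MP_8db9c5_an.H71.Bridge

/-!
# Isometries of Jamesifications of strictly convex spaces: final form
-/

open Topology Filter Set

namespace Pool.Agent.Work.MP_8db9c5_an.H71

open Pool.Agent.Work.MP_8db9c5_an

/-- `T` is `U` or `-U`, where `U e_0 = e_1 - e_0` and `U e_k = e_k` for `k ≥ 1` -/
def IsExchange {E : Type*} [NormedAddCommGroup E] [NormedSpace ℝ E] (e : ℕ → E)
    (T : E ≃ₗᵢ[ℝ] E) : Prop :=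
  ∃ s : ℝ, (s = 1 ∨ s = -1) ∧ T (e 0) = s • (e 1 - e 0) ∧ ∀ k, 1 ≤ k → T (e k) = s • e k

theorem final {X : Type*} [NormedAddCommGroup X] [NormedSpace ℝ X] [CompleteSpace X]
    [StrictConvexSpace ℝ X] {E : Type*} [NormedAddCommGroup E] [NormedSpace ℝ E] [CompleteSpace E]
    {b : UnconditionalSchauderBasis ℕ ℝ X} {e : ℕ → E}
    (hrefl : Function.Surjective (NormedSpace.inclusionInDoubleDual ℝ X))
    (hn : ∀ i, ‖b i‖ = 1) (hJ : IsJamesification b.basis e) (T : E ≃ₗᵢ[ℝ] E) :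
    (∀ z, T z = z) ∨ (∀ z, T z = -z) ∨
      (‖b 0 - b 1‖ ≤ 1 ∧ (∃ t : ℝ, ‖b 0 + t • b 1‖ < 1) ∧ IsExchange e T) := by
  rcases classify hrefl hn hJ T with h | h | ⟨h1, h2⟩
  · exact Or.inl h
  · exact Or.inr (Or.inl h)
  · refine Or.inr (Or.inr ⟨h1, ⟨-(1 / 2), ?_⟩, h2⟩)
    by_contra hcon
    push Not at hcon
    obtain ⟨g, hg, hgp⟩ := exists_dual_vector'' ℝ (b 0 + (-(1 / 2) : ℝ) • b 1)
    have hgp' : 1 ≤ g (b 0 + (-(1 / 2) : ℝ) • b 1) := by
      rw [hgp]; exact hcon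
    have h3 := g_le hg (hn 0).le
    have h4 := g_le hg h1
    have h5 : g (b 0 + (-(1 / 2) : ℝ) • b 1) = (g (b 0) + g (b 0 - b 1)) / 2 := by
      rw [map_add, map_smul, map_sub, smul_eq_mul]; ring
    have h6 := sc hg (hn 0).le h1 (by linarith) (by linarith)
    have h7 : b 1 = 0 := by
      have : b 0 - b 1 = b 0 := h6.symm
      exact sub_eq_self.1 this
    have h8 := hn 1
    rw [h7, norm_zero] at h8
    exact zero_ne_one h8

theorem exchange_ne {X : Type*} [NormedAddCommGroup X] [NormedSpace ℝ X] [CompleteSpace X]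
    {E : Type*} [NormedAddCommGroup E] [NormedSpace ℝ E] [CompleteSpace E]
    {b : UnconditionalSchauderBasis ℕ ℝ X} {e : ℕ → E}
    (hJ : IsJamesification b.basis e) {T : E ≃ₗᵢ[ℝ] E}
    (h0 : T (e 0) = e 1 - e 0) (h1 : ∀ k, 1 ≤ k → T (e k) = e k) :
    IsExchange e T ∧ ¬ (∀ z, T z = z) ∧ ¬ (∀ z, T z = -z) := by
  refine ⟨⟨1, Or.inl rfl, by rw [h0, one_smul], fun k hk => by rw [h1 k hk, one_smul]⟩, ?_, ?_⟩
  · intro h
    have h2 := h (e 0)
    rw [h0, sub_eq_iff_eq_add] at h2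
    have h3 := congrArg (u b e 1) h2
    rw [map_add, u_one hJ le_rfl, u_zero hJ Nat.zero_lt_one] at h3
    norm_num at h3
  · intro h
    have h2 := h (e 1)
    rw [h1 1 le_rfl] at h2
    have h3 := congrArg (u b e 1) h2
    rw [map_neg, u_one hJ le_rfl] at h3
    norm_num at h3

end Pool.Agent.Work.MP_8db9c5_an.H71
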