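import Pool.Agent.Work.MP_8db9c5_an.Tcoord

/-!
# Jamesifications: the tail sums `u_n` and short chains
-/

set_option linter.unusedSectionVars false

open Topology Filter Set

namespace Pool.Agent.Work.MP_8db9c5_an.H71

open Pool.Agent.Work.MP_8db9c5_an

variable {X : Type*} [NormedAddCommGroup X] [NormedSpace ℝ X] [CompleteSpace X]
variable {E : Type*} [NormedAddCommGroup E] [NormedSpace ℝ E] [CompleteSpace E]
variable {b : UnconditionalSchauderBasis ℕ ℝ X} {e : ℕ → E}

/-- the tail sum `∑_{j ≥ n} a_j` -/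
noncomputable def u (b : UnconditionalSchauderBasis ℕ ℝ X) (e : ℕ → E) (n : ℕ) : E →L[ℝ] ℝ :=
  Sg b e - S b e n

theorem u_basis (hJ : IsJamesification b.basis e) (n k : ℕ) :
    u b e n (e k) = if n ≤ k then 1 else 0 := by
  rw [u, _root_.sub_apply, Sg_basis hJ, S_basis hJ]
  by_cases h : n ≤ k
  · rw [if_pos h, if_neg (by omega), sub_zero]
  · rw [if_neg h, if_pos (by omega), sub_self]

theorem u_one (hJ : IsJamesification b.basis e) {n k : ℕ} (h : n ≤ k) : u b e n (e k) = 1 := by
  rw [u_basis hJ, if_pos h]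

theorem u_zero (hJ : IsJamesification b.basis e) {n k : ℕ} (h : k < n) : u b e n (e k) = 0 := by
  rw [u_basis hJ, if_neg (by omega)]

theorem abs_u_le (hn : ∀ i, ‖b i‖ = 1) (hJ : IsJamesification b.basis e) (n : ℕ) (z : E) :
    |u b e n z| ≤ ‖z‖ := abs_Sg_sub_le hn hJ n z

theorem abs_u_sub_le (hn : ∀ i, ‖b i‖ = 1) (hJ : IsJamesification b.basis e) (m n : ℕ) (z : E) :
    |u b e m z - u b e n z| ≤ ‖z‖ := by
  have key : ∀ m n, m ≤ n → |u b e m z - u b e n z| ≤ ‖z‖ := by
    intro m n h
    have h1 := abs_S_sub_le hn hJ h z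
    have h2 : u b e m z - u b e n z = S b e n z - S b e m z := by
      simp only [u, _root_.sub_apply]; ring
    rw [h2]; exact h1
  rcases le_total m n with h | h
  · exact key m n h
  · rw [abs_sub_comm]; exact key n m h

theorem norm_u_le (hn : ∀ i, ‖b i‖ = 1) (hJ : IsJamesification b.basis e) (n : ℕ) :
    ‖u b e n‖ ≤ 1 :=
  ContinuousLinearMap.opNorm_le_bound _ zero_le_one fun z => by
    rw [one_mul]; exact abs_u_le hn hJ n z

theorem u_eq_t (n : ℕ) (z : E) : u b e n z = - t b e n z := by
  rw [t_apply, u, _root_.sub_apply]; ring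

theorem eq_of_u (hJ : IsJamesification b.basis e) {z w : E}
    (h : ∀ n, u b e n z = u b e n w) : z = w :=
  eq_of_t hJ fun n => by
    have := h n
    rw [u_eq_t, u_eq_t] at this
    linarith

/-- functionals agree if they agree on the basis -/
theorem fext (hJ : IsJamesification b.basis e) {f g : E →L[ℝ] ℝ} (h : ∀ j, f (e j) = g (e j)) (z : E) :
    f z = g z := congrArg (fun f => f z) (clm_ext hJ.dense h)

/-! ### short chains -/

/-- intervals `[i, j)`, `[p, q)`, `[r, ∞)` -/
def c3 (i j p q r : ℕ) : ℕ → Option ℕ := fun l =>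
  if i ≤ l ∧ l < j then some i else if p ≤ l ∧ l < q then some p else if r ≤ l then some r else none

/-- intervals `[i, j)`, `[p, q)` -/
def c2 (i j p q : ℕ) : ℕ → Option ℕ := fun l =>
  if i ≤ l ∧ l < j then some i else if p ≤ l ∧ l < q then some p else none

theorem isCode_c3 {i j p q r : ℕ} (hjp : j ≤ p) (hqr : q ≤ r) (hjr : j ≤ r) :
    IsCode (c3 i j p q r) := by
  intro l p' h
  unfold c3 at h ⊢
  split_ifs at h with h1 h2 h3
  · simp only [Option.some.injEq] at h
    subst h
    exact ⟨h1.1, fun m hm1 hm2 => by rw [if_pos ⟨hm1, by omega⟩]⟩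
  · simp only [Option.some.injEq] at h
    subst h
    exact ⟨h2.1, fun m hm1 hm2 => by rw [if_neg (by omega), if_pos (by omega)]⟩
  · simp only [Option.some.injEq] at h
    subst h
    exact ⟨h3, fun m hm1 hm2 => by rw [if_neg (by omega), if_neg (by omega), if_pos hm1]⟩

theorem isCode_c2 {i j p q : ℕ} (hjp : j ≤ p) : IsCode (c2 i j p q) := by
  intro l p' h
  unfold c2 at h ⊢
  split_ifs at h with h1 h2
  · simp only [Option.some.injEq] at h
    subst h
    exact ⟨h1.1, fun m hm1 hm2 => by rw [if_pos ⟨hm1, by omega⟩]⟩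
  · simp only [Option.some.injEq] at h
    subst h
    exact ⟨h2.1, fun m hm1 hm2 => by rw [if_neg (by omega), if_pos (by omega)]⟩

theorem V_c3 (hJ : IsJamesification b.basis e) {i j p q r : ℕ} (hij : i ≤ j) (hjp : j ≤ p)
    (hpq : p ≤ q) (hqr : q ≤ r) (z : E) : V b.basis e (c3 i j p q r) z =
      (u b e i z - u b e j z) • b i + (u b e p z - u b e q z) • b p + u b e r z • b r := by
  have : V b.basis e (c3 i j p q r) = (u b e i - u b e j).smulRight (b i) +
      (u b e p - u b e q).smulRight (b p) + (u b e r).smulRight (b r) :=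
    clm_ext hJ.dense fun l => by
      rw [V_basis hJ (isCode_c3 hjp hqr (by omega)), _root_.add_apply, _root_.add_apply,
        ContinuousLinearMap.smulRight_apply, ContinuousLinearMap.smulRight_apply,
        ContinuousLinearMap.smulRight_apply, _root_.sub_apply, _root_.sub_apply, u_basis hJ,
        u_basis hJ, u_basis hJ, u_basis hJ, u_basis hJ]
      unfold c3
      by_cases h1 : i ≤ l ∧ l < j
      · rw [if_pos h1, if_pos h1.1, if_neg (show ¬ j ≤ l by omega), if_neg (show ¬ p ≤ l by omega),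
          if_neg (show ¬ q ≤ l by omega), if_neg (show ¬ r ≤ l by omega)]
        simp
      · rw [if_neg h1]
        have e1 : (if i ≤ l then (1 : ℝ) else 0) - (if j ≤ l then 1 else 0) = 0 := by
          by_cases h2 : i ≤ l
          · rw [if_pos h2, if_pos (by omega), sub_self]
          · rw [if_neg h2, if_neg (by omega), sub_self]
        rw [e1]
        by_cases h2 : p ≤ l ∧ l < q
        · rw [if_pos h2, if_pos h2.1, if_neg (show ¬ q ≤ l by omega), if_neg (show ¬ r ≤ l by omega)]
          simp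
        · rw [if_neg h2]
          have e2 : (if p ≤ l then (1 : ℝ) else 0) - (if q ≤ l then 1 else 0) = 0 := by
            by_cases h3 : p ≤ l
            · rw [if_pos h3, if_pos (by omega), sub_self]
            · rw [if_neg h3, if_neg (by omega), sub_self]
          rw [e2]
          by_cases h4 : r ≤ l
          · rw [if_pos h4, if_pos h4]; simp
          · rw [if_neg h4, if_neg h4]; simp
  rw [this]; rfl

theorem V_c2 (hJ : IsJamesification b.basis e) {i j p q : ℕ} (hij : i ≤ j) (hjp : j ≤ p)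
    (hpq : p ≤ q) (z : E) : V b.basis e (c2 i j p q) z =
      (u b e i z - u b e j z) • b i + (u b e p z - u b e q z) • b p := by
  have : V b.basis e (c2 i j p q) = (u b e i - u b e j).smulRight (b i) +
      (u b e p - u b e q).smulRight (b p) :=
    clm_ext hJ.dense fun l => by
      rw [V_basis hJ (isCode_c2 hjp), _root_.add_apply,
        ContinuousLinearMap.smulRight_apply, ContinuousLinearMap.smulRight_apply,
        _root_.sub_apply, _root_.sub_apply, u_basis hJ,
        u_basis hJ, u_basis hJ, u_basis hJ]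
      unfold c2
      by_cases h1 : i ≤ l ∧ l < j
      · rw [if_pos h1, if_pos h1.1, if_neg (show ¬ j ≤ l by omega), if_neg (show ¬ p ≤ l by omega),
          if_neg (show ¬ q ≤ l by omega)]
        simp
      · rw [if_neg h1]
        have e1 : (if i ≤ l then (1 : ℝ) else 0) - (if j ≤ l then 1 else 0) = 0 := by
          by_cases h2 : i ≤ l
          · rw [if_pos h2, if_pos (by omega), sub_self]
          · rw [if_neg h2, if_neg (by omega), sub_self]
        rw [e1]
        by_cases h2 : p ≤ l ∧ l < q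
        · rw [if_pos h2, if_pos h2.1, if_neg (show ¬ q ≤ l by omega)]
          simp
        · rw [if_neg h2]
          have e2 : (if p ≤ l then (1 : ℝ) else 0) - (if q ≤ l then 1 else 0) = 0 := by
            by_cases h3 : p ≤ l
            · rw [if_pos h3, if_pos (by omega), sub_self]
            · rw [if_neg h3, if_neg (by omega), sub_self]
          rw [e2]
          simp
  rw [this]; rfl

theorem chain3 (hJ : IsJamesification b.basis e) {i j p q r : ℕ} (hij : i ≤ j) (hjp : j ≤ p)
    (hpq : p ≤ q) (hqr : q ≤ r) (z : E) :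
    ‖(u b e i z - u b e j z) • b i + (u b e p z - u b e q z) • b p + u b e r z • b r‖ ≤ ‖z‖ := by
  rw [← V_c3 hJ hij hjp hpq hqr]
  exact norm_V_le hJ (isCode_c3 hjp hqr (by omega)) z

/-- intervals `[i, j)`, `[r, ∞)` -/
theorem chain2i (hJ : IsJamesification b.basis e) {i j r : ℕ} (hij : i ≤ j) (hjr : j ≤ r) (z : E) :
    ‖(u b e i z - u b e j z) • b i + u b e r z • b r‖ ≤ ‖z‖ := by
  have := chain3 hJ hij hjr (le_refl r) (le_refl r) z
  rwa [sub_self, zero_smul, add_zero] at this

/-- intervals `[i, j)`, `[p, q)` -/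
theorem chain2 (hJ : IsJamesification b.basis e) {i j p q : ℕ} (hij : i ≤ j) (hjp : j ≤ p)
    (hpq : p ≤ q) (z : E) :
    ‖(u b e i z - u b e j z) • b i + (u b e p z - u b e q z) • b p‖ ≤ ‖z‖ := by
  rw [← V_c2 hJ hij hjp hpq]
  exact norm_V_le hJ (isCode_c2 hjp) z

/-- the value of the last, infinite interval -/
theorem coord_V_u (hJ : IsJamesification b.basis e) {r : ℕ → Option ℕ} (hr : IsCode r)
    {p : ℕ} (h : ∀ j, (r j = some p ↔ p ≤ j)) (z : E) :
    b.coord p (V b.basis e r z) = u b e p z := coord_V_inf hJ hr h z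

/-! ### strict convexity -/

/-- a functional attains its norm at most once -/
theorem sc [StrictConvexSpace ℝ X] {g : X →L[ℝ] ℝ} (hg : ‖g‖ ≤ 1) {v w : X} (hv : ‖v‖ ≤ 1)
    (hw : ‖w‖ ≤ 1) (h1 : g v = 1) (h2 : g w = 1) : v = w := by
  have h3 : 2 ≤ ‖v + w‖ := by
    have h4 := g.le_of_opNorm_le hg (v + w)
    rw [map_add, h1, h2, one_mul, Real.norm_eq_abs] at h4
    have := le_abs_self (1 + 1 : ℝ)
    linarith
  have h5 := norm_add_le v w
  have hu1 : ‖v‖ = 1 := by linarith
  have hv1 : ‖w‖ = 1 := by linarith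
  refine eq_of_norm_eq_of_norm_add_eq (by rw [hu1, hv1]) ?_
  rw [hu1, hv1]
  linarith

theorem g_le {g : X →L[ℝ] ℝ} (hg : ‖g‖ ≤ 1) {v : X} (hv : ‖v‖ ≤ 1) : g v ≤ 1 := by
  have h4 := g.le_of_opNorm_le hg v
  rw [one_mul, Real.norm_eq_abs] at h4
  have := le_abs_self (g v)
  linarith

theorem norm_ox_le (hn : ∀ i, ‖b i‖ = 1) (o : Option ℕ) : ‖ox b.basis o‖ ≤ 1 := by
  rcases o with _ | p
  · simp
  · rw [ox_some]; exact (hn p).le

theorem b_inj {i j : ℕ} (h : b i = b j) : i = j := by
  have h1 := congrArg (b.coord i) h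
  rw [coord_basis, coord_basis, if_pos rfl] at h1
  by_contra hc
  rw [if_neg hc] at h1
  exact one_ne_zero h1

theorem noTwo [StrictConvexSpace ℝ X] (hn : ∀ i, ‖b i‖ = 1) : NoTwo b := by
  intro g i j hg hi hj
  exact b_inj (sc hg (hn i).le (hn j).le hi hj)

/-- `x_p` lies strictly between `x_p - s x_j` and `x_p + t x_j` -/
theorem no_between [StrictConvexSpace ℝ X] (hn : ∀ i, ‖b i‖ = 1) {p j : ℕ} {s t : ℝ}
    (hs : 0 < s) (ht : 0 ≤ t) (h1 : ‖b p - s • b j‖ ≤ 1) (h2 : ‖b p + t • b j‖ ≤ 1) : t = 0 := by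
  by_contra hne
  have ht' : 0 < t := lt_of_le_of_ne ht (Ne.symm hne)
  obtain ⟨g, hg, hgp⟩ := exists_dual_basis (b := b) hn p
  have h3 := g_le hg h1
  have h4 := g_le hg h2
  rw [map_sub, map_smul, hgp, smul_eq_mul] at h3
  rw [map_add, map_smul, hgp, smul_eq_mul] at h4
  have h5 : g (b j) = 0 := by
    have h6 : 0 ≤ s * g (b j) := by linarith
    have h7 : t * g (b j) ≤ 0 := by linarith
    have h8 : 0 ≤ g (b j) := by
      by_contra hc
      push Not at hc
      have := mul_neg_of_pos_of_neg hs hc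
      linarith
    have h9 : g (b j) ≤ 0 := by
      by_contra hc
      push Not at hc
      have := mul_pos ht' hc
      linarith
    linarith
  have h6 : b p - s • b j = b p := sc hg h1 (hn p).le (by rw [map_sub, map_smul, hgp, h5]; simp) hgp
  have h7 : s • b j = 0 := by
    have := sub_eq_self.1 h6
    exact this
  rcases smul_eq_zero.1 h7 with h8 | h8
  · exact absurd h8 hs.ne'
  · have := hn j
    rw [h8, norm_zero] at this
    exact zero_ne_one this

end Pool.Agent.Work.MP_8db9c5_an.H71
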